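import Pool.Agent.W850.HT.Char

/-!
# Marked blocks of a Poisson process

A block carries a Poisson number of points with uniform positions in `(0, 1]` and independent
marks.
-/

set_option autoImplicit false

open MeasureTheory ProbabilityTheory Set Filter Topology
open scoped NNReal ENNReal

namespace Pool.Agent.P8H98.ST

open Pool.Agent.W850.HT

/-- One block: a number of points and a sequence of pairs (position, mark). -/
abbrev MBlk := ℕ × (ℕ → ℝ × ℝ)

/-- The law of a block of rate `r` with mark law `κ`. -/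
noncomputable def mblk (r : ℝ≥0) (κ : Measure ℝ) : Measure MBlk :=
  (poissonMeasure r).prod (Measure.infinitePi fun _ : ℕ => unif.prod κ)

instance (r : ℝ≥0) (κ : Measure ℝ) [IsProbabilityMeasure κ] : IsProbabilityMeasure (mblk r κ) := by
  unfold mblk; infer_instance

theorem measurable_mblk {g : ℝ × ℝ → ℂ} (hg : Measurable g) :
    Measurable (fun b : MBlk => ∏ i ∈ Finset.range b.1, g (b.2 i)) := by
  apply measurable_from_prod_countable_right
  intro k
  simp only
  exact Finset.measurable_prod (Finset.range k) (fun i _ => hg.comp (measurable_pi_apply i))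

theorem measurable_mblk_sum {g : ℝ × ℝ → ℝ} (hg : Measurable g) :
    Measurable (fun b : MBlk => ∑ i ∈ Finset.range b.1, g (b.2 i)) := by
  apply measurable_from_prod_countable_right
  intro k
  simp only
  exact Finset.measurable_sum (Finset.range k) (fun i _ => hg.comp (measurable_pi_apply i))

theorem measurable_mblk_lsum {g : ℝ × ℝ → ℝ≥0∞} (hg : Measurable g) :
    Measurable (fun b : MBlk => ∑ i ∈ Finset.range b.1, g (b.2 i)) := by
  apply measurable_from_prod_countable_right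
  intro k
  simp only
  exact Finset.measurable_sum (Finset.range k) (fun i _ => hg.comp (measurable_pi_apply i))

theorem integral_mblk (r : ℝ≥0) (κ : Measure ℝ) [IsProbabilityMeasure κ] {g : ℝ × ℝ → ℂ}
    (hg : Measurable g) (hb : ∀ u, ‖g u‖ ≤ 1) :
    ∫ b, ∏ i ∈ Finset.range b.1, g (b.2 i) ∂(mblk r κ) =
      Complex.exp (r * ((∫ u, g u ∂(unif.prod κ)) - 1)) := by
  have hint : Integrable (fun b : MBlk => ∏ i ∈ Finset.range b.1, g (b.2 i)) (mblk r κ) := by
    refine Integrable.of_bound (measurable_mblk hg).aestronglyMeasurable 1 (ae_of_all _ ?_)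
    intro b
    rw [norm_prod]
    exact Finset.prod_le_one (fun i _ => norm_nonneg _) (fun i _ => hb _)
  rw [mblk] at hint ⊢
  rw [integral_prod _ hint]
  have h1 : ∀ k : ℕ, ∫ U, ∏ i ∈ Finset.range k, g (U i)
      ∂(Measure.infinitePi fun _ : ℕ => unif.prod κ) = (∫ u, g u ∂(unif.prod κ)) ^ k := by
    intro k
    rw [integral_prod_infinitePi (fun _ : ℕ => unif.prod κ) (Finset.range k) (fun _ => g)
      (fun _ => hg)]
    simp
  simp_rw [h1]
  rw [integral_poissonMeasure r]
  calc ∑' n : ℕ, (Real.exp (-r) * r ^ n / (n.factorial)) • (∫ u, g u ∂(unif.prod κ)) ^ n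
      = ∑' n : ℕ, (Real.exp (-r) : ℂ) * ((r * (∫ u, g u ∂(unif.prod κ))) ^ n / n.factorial) := by
        congr with n
        rw [Complex.real_smul]
        push_cast
        rw [mul_pow]
        ring
    _ = (Real.exp (-r) : ℂ) * ∑' n : ℕ, ((r * (∫ u, g u ∂(unif.prod κ))) ^ n / n.factorial) :=
        tsum_mul_left
    _ = (Real.exp (-r) : ℂ) * Complex.exp (r * (∫ u, g u ∂(unif.prod κ))) := by
        rw [(NormedSpace.expSeries_div_hasSum_exp (r * (∫ u, g u ∂(unif.prod κ)))).tsum_eq,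
          Complex.exp_eq_exp_ℂ]
    _ = _ := by
        rw [Complex.ofReal_exp, ← Complex.exp_add]
        push_cast
        ring_nf

theorem hasSum_poisson_id (r : ℝ≥0) :
    HasSum (fun n : ℕ => Real.exp (-r) * (r : ℝ) ^ n / n.factorial * n) (r : ℝ) := by
  rw [← hasSum_nat_add_iff' 1]
  have h2 := (hasSum_one_poissonMeasure r).mul_left (r : ℝ)
  simp only [mul_one] at h2
  simp only [Finset.range_one, Finset.sum_singleton, Nat.cast_zero, mul_zero, sub_zero]
  have h3 : (fun n : ℕ => Real.exp (-r) * (r : ℝ) ^ (n + 1) / (n + 1).factorial *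
      ((n + 1 : ℕ) : ℝ)) = fun n : ℕ => (r : ℝ) * (Real.exp (-r) * (r : ℝ) ^ n / n.factorial) := by
    funext n
    rw [Nat.factorial_succ]
    push_cast
    have : (n.factorial : ℝ) ≠ 0 := by positivity
    field_simp
    ring
  rw [h3]
  exact h2

/-- The mean of a Poisson variable. -/
theorem lintegral_poisson_id (r : ℝ≥0) : ∫⁻ k : ℕ, (k : ℝ≥0∞) ∂(poissonMeasure r) = r := by
  rw [poissonMeasure, lintegral_sum_measure]
  simp only [lintegral_smul_measure, lintegral_dirac, smul_eq_mul]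
  have h1 := hasSum_poisson_id r
  have h3 : ∀ n : ℕ, ENNReal.ofReal (Real.exp (-r) * (r : ℝ) ^ n / n.factorial) * (n : ℝ≥0∞) =
      ENNReal.ofReal (Real.exp (-r) * (r : ℝ) ^ n / n.factorial * n) := by
    intro n
    rw [ENNReal.ofReal_mul (by positivity), ENNReal.ofReal_natCast]
  simp_rw [h3]
  rw [← ENNReal.ofReal_tsum_of_nonneg (fun n => by positivity) h1.summable, h1.tsum_eq]
  exact ENNReal.ofReal_coe_nnreal

theorem lintegral_mblk (r : ℝ≥0) (κ : Measure ℝ) [IsProbabilityMeasure κ] {g : ℝ × ℝ → ℝ≥0∞}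
    (hg : Measurable g) :
    ∫⁻ b, ∑ i ∈ Finset.range b.1, g (b.2 i) ∂(mblk r κ) = r * ∫⁻ u, g u ∂(unif.prod κ) := by
  rw [mblk, lintegral_prod _ (measurable_mblk_lsum hg).aemeasurable]
  have h1 : ∀ k : ℕ, ∫⁻ y, ∑ i ∈ Finset.range k, g (y i)
      ∂(Measure.infinitePi fun _ : ℕ => unif.prod κ) = k * ∫⁻ u, g u ∂(unif.prod κ) := by
    intro k
    rw [lintegral_finsetSum (Finset.range k) (f := fun i (y : ℕ → ℝ × ℝ) => g (y i))
      (fun i _ => hg.comp (measurable_pi_apply i))]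
    have h2 : ∀ i : ℕ, ∫⁻ y, g (y i) ∂(Measure.infinitePi fun _ : ℕ => unif.prod κ) =
        ∫⁻ u, g u ∂(unif.prod κ) := by
      intro i
      have h3 := measurePreserving_eval_infinitePi (fun _ : ℕ => unif.prod κ) i
      exact h3.lintegral_comp hg
    simp_rw [h2]
    simp
  simp_rw [h1]
  rw [lintegral_mul_const _ (by fun_prop), lintegral_poisson_id]

/-- The sample space: (level, block). -/
abbrev MOm := ℕ × ℕ → MBlk

/-- The law: the block `k` of level `m` has rate `r m` and mark law `κ m`. -/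
noncomputable def MP (r : ℕ → ℝ≥0) (κ : ℕ → Measure ℝ) [∀ m, IsProbabilityMeasure (κ m)] :
    Measure MOm :=
  Measure.infinitePi (fun p : ℕ × ℕ => mblk (r p.1) (κ p.1))

instance (r : ℕ → ℝ≥0) (κ : ℕ → Measure ℝ) [∀ m, IsProbabilityMeasure (κ m)] :
    IsProbabilityMeasure (MP r κ) := by unfold MP; infer_instance

theorem integral_MP (r : ℕ → ℝ≥0) (κ : ℕ → Measure ℝ) [∀ m, IsProbabilityMeasure (κ m)]
    (S : Finset (ℕ × ℕ)) {g : ℕ × ℕ → ℝ × ℝ → ℂ}
    (hg : ∀ p, Measurable (g p)) (hb : ∀ p u, ‖g p u‖ ≤ 1) :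
    ∫ ω : MOm, ∏ p ∈ S, ∏ i ∈ Finset.range (ω p).1, g p ((ω p).2 i) ∂(MP r κ) =
      ∏ p ∈ S, Complex.exp (r p.1 * ((∫ u, g p u ∂(unif.prod (κ p.1))) - 1)) := by
  rw [MP, integral_prod_infinitePi (fun p : ℕ × ℕ => mblk (r p.1) (κ p.1)) S
    (fun p b => ∏ i ∈ Finset.range b.1, g p (b.2 i)) (fun p => measurable_mblk (hg p))]
  exact Finset.prod_congr rfl (fun p _ => integral_mblk _ _ (hg p) (hb p))

theorem lintegral_MP (r : ℕ → ℝ≥0) (κ : ℕ → Measure ℝ) [∀ m, IsProbabilityMeasure (κ m)]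
    (p : ℕ × ℕ) {g : ℝ × ℝ → ℝ≥0∞} (hg : Measurable g) :
    ∫⁻ ω : MOm, ∑ i ∈ Finset.range (ω p).1, g ((ω p).2 i) ∂(MP r κ) =
      r p.1 * ∫⁻ u, g u ∂(unif.prod (κ p.1)) := by
  rw [← lintegral_mblk (r p.1) (κ p.1) hg]
  have h3 := measurePreserving_eval_infinitePi (fun p : ℕ × ℕ => mblk (r p.1) (κ p.1)) p
  exact h3.lintegral_comp (measurable_mblk_lsum hg)

end Pool.Agent.P8H98.ST
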