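import Pool.Agent.P8H98.ST.Jump

/-!
# Joint characteristic function of the increments of finitely many levels
-/

set_option autoImplicit false

open MeasureTheory ProbabilityTheory Set Filter Topology
open scoped NNReal ENNReal

namespace Pool.Agent.P8H98.ST

open Pool.Agent.W850.HT

/-- The function on points used for the increments. -/
noncomputable def mg {n : ℕ} (t : Fin (n + 1) → ℝ) (θ : Fin n → ℝ) (p : ℕ × ℕ) (u : ℝ × ℝ) : ℂ :=
  if 0 < u.1 then Complex.exp (step t (fun j => θ j * u.2 * Complex.I) (p.2 + u.1)) else 1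

theorem measurable_mg {n : ℕ} (t : Fin (n + 1) → ℝ) (θ : Fin n → ℝ) (p : ℕ × ℕ) :
    Measurable (mg t θ p) := by
  unfold mg
  apply Measurable.ite (measurableSet_Ioi.preimage measurable_fst) _ measurable_const
  apply Complex.measurable_exp.comp
  unfold step
  apply Finset.measurable_sum
  intro j _
  apply Measurable.mul
  · fun_prop
  · exact (measurable_const.indicator measurableSet_Ioc).comp
      (measurable_const.add measurable_fst)

theorem norm_mg {n : ℕ} (t : Fin (n + 1) → ℝ) (θ : Fin n → ℝ) (p : ℕ × ℕ) (u : ℝ × ℝ) :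
    ‖mg t θ p u‖ ≤ 1 := by
  unfold mg
  split_ifs
  · rw [Complex.norm_exp, Real.exp_le_one_iff]
    apply step_re_le
    intro j
    simp [Complex.mul_re]
  · simp

/-- The exponent of a mark law. -/
noncomputable def psi (κ : Measure ℝ) (θ : ℝ) : ℂ := ∫ x, (Complex.exp (θ * x * Complex.I) - 1) ∂κ

theorem norm_cexp_sub_one_le (θ x : ℝ) : ‖Complex.exp (θ * x * Complex.I) - 1‖ ≤ 2 := by
  refine (norm_sub_le _ _).trans ?_
  rw [show ((θ : ℂ) * x * Complex.I) = ((θ * x : ℝ) : ℂ) * Complex.I by push_cast; ring,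
    Complex.norm_exp_ofReal_mul_I]
  norm_num

theorem integrable_cexp_sub_one (κ : Measure ℝ) [IsFiniteMeasure κ] (θ : ℝ) :
    Integrable (fun x : ℝ => Complex.exp (θ * x * Complex.I) - 1) κ := by
  refine Integrable.of_bound ?_ 2 (ae_of_all _ (norm_cexp_sub_one_le θ))
  apply Measurable.aestronglyMeasurable
  fun_prop

theorem integral_mg {n : ℕ} {t : Fin (n + 1) → ℝ} (ht : Monotone t) (θ : Fin n → ℝ)
    (κ : Measure ℝ) [IsProbabilityMeasure κ] (p : ℕ × ℕ) :
    (∫ u, mg t θ p u ∂(unif.prod κ)) - 1 = ∑ j, psi κ (θ j) *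
      ∫ u, (Ioc (t j.castSucc) (t j.succ)).indicator (fun _ => (1 : ℂ)) (p.2 + u) ∂unif := by
  have hae : ∀ᵐ u ∂(unif.prod κ), 0 < u.1 := by
    have h1 : ∀ᵐ v ∂unif, 0 < v := by
      unfold unif
      filter_upwards [ae_restrict_mem measurableSet_Ioc] with v hv
      exact hv.1
    exact Measure.quasiMeasurePreserving_fst.ae h1
  have h1 : (∫ u, mg t θ p u ∂(unif.prod κ)) =
      ∫ u, (1 + ∑ j, (Ioc (t j.castSucc) (t j.succ)).indicator (fun _ => (1 : ℂ)) (p.2 + u.1) *
      (Complex.exp (θ j * u.2 * Complex.I) - 1)) ∂(unif.prod κ) := by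
    apply integral_congr_ae
    filter_upwards [hae] with u hu
    simp only [mg]
    rw [if_pos hu]
    have := cexp_step ht (fun j => (θ j : ℂ) * u.2 * Complex.I) (p.2 + u.1)
    rw [sub_eq_iff_eq_add'] at this
    rw [this]
    congr 1
    exact Finset.sum_congr rfl (fun j _ => mul_comm _ _)
  rw [h1]
  have h2 : ∀ j : Fin n, Integrable (fun u : ℝ =>
      (Ioc (t j.castSucc) (t j.succ)).indicator (fun _ => (1 : ℂ)) ((p.2 : ℝ) + u)) unif := by
    intro j
    refine Integrable.of_bound ?_ 1 (ae_of_all _ ?_)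
    · apply Measurable.aestronglyMeasurable
      exact (measurable_const.indicator measurableSet_Ioc).comp (measurable_const.add measurable_id)
    · intro u
      simp only [indicator]
      split_ifs <;> simp
  have h3 : ∀ j : Fin n, Integrable (fun u : ℝ × ℝ =>
      (Ioc (t j.castSucc) (t j.succ)).indicator (fun _ => (1 : ℂ)) ((p.2 : ℝ) + u.1) *
      (Complex.exp (θ j * u.2 * Complex.I) - 1)) (unif.prod κ) := fun j =>
    (h2 j).mul_prod (integrable_cexp_sub_one κ (θ j))
  rw [integral_add (integrable_const _) (integrable_finsetSum _ (fun j _ => h3 j)),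
    integral_finsetSum _ (fun j _ => h3 j)]
  have h4 : ∀ j : Fin n, ∫ u : ℝ × ℝ,
      (Ioc (t j.castSucc) (t j.succ)).indicator (fun _ => (1 : ℂ)) ((p.2 : ℝ) + u.1) *
      (Complex.exp (θ j * u.2 * Complex.I) - 1) ∂(unif.prod κ) =
      (∫ u, (Ioc (t j.castSucc) (t j.succ)).indicator (fun _ => (1 : ℂ)) (p.2 + u) ∂unif) *
        psi κ (θ j) := fun j =>
    integral_prod_mul (fun u : ℝ =>
      (Ioc (t j.castSucc) (t j.succ)).indicator (fun _ => (1 : ℂ)) ((p.2 : ℝ) + u))
      (fun x : ℝ => Complex.exp (θ j * x * Complex.I) - 1)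
  simp_rw [h4]
  simp only [integral_const, probReal_univ, one_smul, add_sub_cancel_left]
  exact Finset.sum_congr rfl (fun j _ => mul_comm _ _)

/-- Joint characteristic function of increments of finitely many levels. -/
theorem char_levels (r : ℕ → ℝ≥0) (κ : ℕ → Measure ℝ) [∀ m, IsProbabilityMeasure (κ m)] (M : ℕ)
    {n : ℕ} {t : Fin (n + 1) → ℝ} (ht : Monotone t) (ht0 : 0 ≤ t 0) (θ : Fin n → ℝ) :
    ∫ ω, Complex.exp (∑ m ∈ Finset.range M, ∑ j : Fin n,
        θ j * Complex.I * ((lsum id m (t j.succ) ω - lsum id m (t j.castSucc) ω : ℝ) : ℂ))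
        ∂(MP r κ) =
      Complex.exp (∑ m ∈ Finset.range M, ∑ j : Fin n,
        ((t j.succ - t j.castSucc : ℝ) : ℂ) * (r m * psi (κ m) (θ j))) := by
  set B : ℕ := ⌈t (Fin.last n)⌉₊ with hB
  have hBj : ∀ j : Fin (n + 1), ⌈t j⌉₊ ≤ B := fun j => Nat.ceil_mono (ht (Fin.le_last j))
  have key : ∀ ω : MOm, Complex.exp (∑ m ∈ Finset.range M, ∑ j : Fin n,
        θ j * Complex.I * ((lsum id m (t j.succ) ω - lsum id m (t j.castSucc) ω : ℝ) : ℂ)) =
      ∏ p ∈ Finset.range M ×ˢ Finset.range B, ∏ i ∈ Finset.range (ω p).1,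
        mg t θ p ((ω p).2 i) := by
    intro ω
    have h1 : ∀ m : ℕ, (∑ j : Fin n,
        θ j * Complex.I * ((lsum id m (t j.succ) ω - lsum id m (t j.castSucc) ω : ℝ) : ℂ)) =
        ∑ k ∈ Finset.range B, ∑ i ∈ Finset.range (ω (m, k)).1,
          (if 0 < ((ω (m, k)).2 i).1 then
            step t (fun j => θ j * ((ω (m, k)).2 i).2 * Complex.I) (k + ((ω (m, k)).2 i).1)
            else 0) := by
      intro m
      have h2 : ∀ j : Fin n,
          θ j * Complex.I * ((lsum id m (t j.succ) ω - lsum id m (t j.castSucc) ω : ℝ) : ℂ) =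
          ∑ k ∈ Finset.range B, ∑ i ∈ Finset.range (ω (m, k)).1,
            (if 0 < ((ω (m, k)).2 i).1 then θ j * ((ω (m, k)).2 i).2 * Complex.I *
              (Ioc (t j.castSucc) (t j.succ)).indicator (fun _ => (1 : ℂ))
                (k + ((ω (m, k)).2 i).1) else 0) := by
        intro j
        rw [lsum_sub id m (ht (Fin.castSucc_le_succ j)) (hBj j.succ) ω, Complex.ofReal_sum,
          Finset.mul_sum]
        refine Finset.sum_congr rfl (fun k _ => ?_)
        rw [Complex.ofReal_sum, Finset.mul_sum]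
        refine Finset.sum_congr rfl (fun i _ => ?_)
        by_cases h0 : 0 < ((ω (m, k)).2 i).1
        · rw [if_pos h0]
          by_cases h3 : (k + ((ω (m, k)).2 i).1) ∈ Ioc (t j.castSucc) (t j.succ)
          · rw [indicator_of_mem h3, if_pos ⟨h0, h3.1, h3.2⟩, id]
            ring
          · rw [indicator_of_notMem h3, if_neg (fun h => h3 ⟨h.2.1, h.2.2⟩), Complex.ofReal_zero]
            ring
        · rw [if_neg h0, if_neg (fun h => h0 h.1), Complex.ofReal_zero, mul_zero]
      simp_rw [h2]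
      rw [Finset.sum_comm]
      refine Finset.sum_congr rfl (fun k _ => ?_)
      rw [Finset.sum_comm]
      refine Finset.sum_congr rfl (fun i _ => ?_)
      by_cases h0 : 0 < ((ω (m, k)).2 i).1
      · simp only [if_pos h0]; rfl
      · simp only [if_neg h0]; simp
    simp_rw [h1]
    rw [Complex.exp_sum, Finset.prod_product]
    refine Finset.prod_congr rfl (fun m _ => ?_)
    rw [Complex.exp_sum]
    refine Finset.prod_congr rfl (fun k _ => ?_)
    rw [Complex.exp_sum]
    refine Finset.prod_congr rfl (fun i _ => ?_)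
    unfold mg
    by_cases h0 : 0 < ((ω (m, k)).2 i).1
    · rw [if_pos h0, if_pos h0]
    · rw [if_neg h0, if_neg h0]; simp
  simp_rw [key]
  rw [integral_MP r κ _ (measurable_mg t θ) (norm_mg t θ), ← Complex.exp_sum]
  congr 1
  rw [Finset.sum_product]
  refine Finset.sum_congr rfl (fun m _ => ?_)
  simp only
  simp_rw [integral_mg ht θ (κ m)]
  rw [← Finset.mul_sum, Finset.sum_comm, Finset.mul_sum]
  refine Finset.sum_congr rfl (fun j _ => ?_)
  rw [← Finset.mul_sum]
  have h5 := sum_integral_unif (f := (Ioc (t j.castSucc) (t j.succ)).indicator (fun _ => (1 : ℂ))) B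
    (fun a b => intervalIntegrable_indicator _ _ a b)
  rw [h5, integral_indicator_Ioc (ht0.trans (ht (Fin.zero_le _)))
    (ht (Fin.castSucc_le_succ j)) ((ht (Fin.le_last j.succ)).trans (Nat.le_ceil _))]
  ring

end Pool.Agent.P8H98.ST
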