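import Pool.Agent.P8H98.ST.Proc

/-!
# The Lévy measure of the symmetric stable law of index `α < 1`
-/

set_option autoImplicit false

open MeasureTheory ProbabilityTheory Set Filter Topology
open scoped NNReal ENNReal

namespace Pool.Agent.P8H98.ST

/-- the density of the Lévy measure, up to a constant -/
noncomputable def w (α x : ℝ) : ℝ := |x| ^ (-1 - α)

theorem w_nonneg (α x : ℝ) : 0 ≤ w α x := Real.rpow_nonneg (abs_nonneg x) _

theorem w_neg (α x : ℝ) : w α (-x) = w α x := by unfold w; rw [abs_neg]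

theorem measurable_w (α : ℝ) : Measurable (w α) := by
  unfold w
  exact (measurable_norm (α := ℝ)).pow_const _

theorem integrable_min_w {α : ℝ} (h0 : 0 < α) (h1 : α < 1) :
    Integrable (fun x => min 1 |x| * w α x) := by
  have hIoi : IntegrableOn (fun x => min 1 |x| * w α x) (Ioi 0) := by
    rw [← Ioc_union_Ioi_eq_Ioi zero_le_one]
    apply IntegrableOn.union
    · have h2 : IntegrableOn (fun x : ℝ => x ^ (-α)) (Ioc 0 1) := by
        have := (intervalIntegral.intervalIntegrable_rpow' (a := 0) (b := 1)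
          (show -1 < -α by linarith)).1
        exact this
      refine h2.congr_fun ?_ measurableSet_Ioc
      intro x hx
      have hx0 : 0 < x := hx.1
      simp only [w]
      rw [abs_of_pos hx0, min_eq_right hx.2]
      rw [show x * x ^ (-1 - α) = x ^ (1 : ℝ) * x ^ (-1 - α) by rw [Real.rpow_one],
        ← Real.rpow_add hx0]
      congr 1
      ring
    · have h2 : IntegrableOn (fun x : ℝ => x ^ (-1 - α)) (Ioi 1) :=
        integrableOn_Ioi_rpow_of_lt (by linarith) one_pos
      refine h2.congr_fun ?_ measurableSet_Ioi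
      intro x hx
      have hx0 : 1 < x := hx
      simp only [w]
      rw [abs_of_pos (by linarith), min_eq_left hx0.le, one_mul]
  have hIic : IntegrableOn (fun x => min 1 |x| * w α x) (Iic 0) := by
    rw [← Measure.map_neg_eq_self (volume : Measure ℝ)]
    let m : MeasurableEmbedding fun x : ℝ => -x := (Homeomorph.neg ℝ).measurableEmbedding
    rw [m.integrableOn_map_iff]
    simp_rw [Function.comp_def, abs_neg, w_neg, neg_preimage, neg_Iic, neg_zero]
    exact Iff.mpr integrableOn_Ici_iff_integrableOn_Ioi hIoi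
  rw [← integrableOn_univ, ← Iic_union_Ioi]
  exact hIic.union hIoi

theorem norm_cexp_sub_one_le' (θ x : ℝ) :
    ‖Complex.exp (θ * x * Complex.I) - 1‖ ≤ (2 + |θ|) * min 1 |x| := by
  rcases le_total 1 |x| with h | h
  · rw [min_eq_left h, mul_one]
    exact (norm_cexp_sub_one_le θ x).trans (by linarith [abs_nonneg θ])
  · rw [min_eq_right h]
    have h1 : ‖Complex.exp (θ * x * Complex.I) - 1‖ ≤ |θ * x| := by
      have := Real.norm_exp_I_mul_ofReal_sub_one_le (x := θ * x)
      rw [Real.norm_eq_abs] at this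
      convert this using 3
      push_cast
      ring_nf
    rw [abs_mul] at h1
    nlinarith [abs_nonneg x, abs_nonneg θ]

/-- the integrand -/
noncomputable def FF (α θ x : ℝ) : ℂ := (w α x : ℂ) * (Complex.exp (θ * x * Complex.I) - 1)

theorem measurable_FF (α θ : ℝ) : Measurable (FF α θ) := by
  unfold FF
  exact (Complex.measurable_ofReal.comp (measurable_w α)).mul (by fun_prop)

theorem integrable_FF {α : ℝ} (h0 : 0 < α) (h1 : α < 1) (θ : ℝ) : Integrable (FF α θ) := by
  refine ((integrable_min_w h0 h1).const_mul (2 + |θ|)).mono'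
    (measurable_FF α θ).aestronglyMeasurable (ae_of_all _ fun x => ?_)
  unfold FF
  rw [norm_mul, Complex.norm_real, Real.norm_eq_abs, abs_of_nonneg (w_nonneg α x)]
  calc w α x * ‖Complex.exp (θ * x * Complex.I) - 1‖
      ≤ w α x * ((2 + |θ|) * min 1 |x|) :=
        mul_le_mul_of_nonneg_left (norm_cexp_sub_one_le' θ x) (w_nonneg α x)
    _ = _ := by ring

/-- the normalising constant -/
noncomputable def cst (α : ℝ) : ℝ := ∫ x, (1 - Real.cos x) * w α x

theorem FF_re (α x : ℝ) : (FF α 1 x).re = -((1 - Real.cos x) * w α x) := by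
  unfold FF
  rw [Complex.re_ofReal_mul, Complex.sub_re, Complex.one_re]
  have : Complex.exp ((1 : ℝ) * x * Complex.I) = Complex.exp (x * Complex.I) := by
    push_cast; ring_nf
  rw [this, Complex.exp_ofReal_mul_I_re]
  ring

theorem integrable_cos_w {α : ℝ} (h0 : 0 < α) (h1 : α < 1) :
    Integrable (fun x => (1 - Real.cos x) * w α x) := by
  have h := (integrable_FF h0 h1 1).re.neg
  refine h.congr (ae_of_all _ fun x => ?_)
  simp only [Pi.neg_apply]
  show -(FF α 1 x).re = _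
  rw [FF_re, neg_neg]

theorem cst_pos {α : ℝ} (h0 : 0 < α) (h1 : α < 1) : 0 < cst α := by
  unfold cst
  have hnn : ∀ x, 0 ≤ (1 - Real.cos x) * w α x := fun x =>
    mul_nonneg (by linarith [Real.cos_le_one x]) (w_nonneg α x)
  rw [integral_pos_iff_support_of_nonneg hnn (integrable_cos_w h0 h1)]
  have hsub : Ioo (1 : ℝ) 2 ⊆ Function.support (fun x => (1 - Real.cos x) * w α x) := by
    intro x hx
    rw [Function.mem_support]
    have h2 : Real.cos x < 1 := by
      rw [← Real.cos_zero]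
      exact Real.cos_lt_cos_of_nonneg_of_le_pi le_rfl
        (by linarith [hx.2, Real.pi_gt_three]) (by linarith [hx.1])
    have h3 : 0 < w α x := by
      unfold w
      exact Real.rpow_pos_of_pos (abs_pos.2 (by linarith [hx.1])) _
    have : 0 < (1 - Real.cos x) * w α x := mul_pos (by linarith) h3
    exact this.ne'
  refine lt_of_lt_of_le ?_ (measure_mono hsub)
  rw [Real.volume_Ioo]
  norm_num

theorem integral_FF_one {α : ℝ} (h0 : 0 < α) (h1 : α < 1) : ∫ x, FF α 1 x = -(cst α : ℂ) := by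
  have him : (∫ x, FF α 1 x).im = 0 := by
    have h2 : ∫ x, FF α 1 x = (starRingEnd ℂ) (∫ x, FF α 1 x) := by
      rw [← integral_conj]
      rw [← integral_neg_eq_self]
      congr 1
      ext x
      unfold FF
      rw [w_neg, map_mul, Complex.conj_ofReal, map_sub, map_one, ← Complex.exp_conj]
      congr 3
      simp
    have h3 := congrArg Complex.im h2
    rw [Complex.conj_im] at h3
    linarith
  have hre : (∫ x, FF α 1 x).re = -cst α := by
    have h2 : (∫ x, FF α 1 x).re = ∫ x, (FF α 1 x).re := by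
      have := integral_re (integrable_FF h0 h1 1) (𝕜 := ℂ)
      exact this.symm
    rw [h2]
    simp_rw [FF_re]
    rw [integral_neg]
    rfl
  apply Complex.ext
  · rw [hre]; simp
  · rw [him]; simp

theorem integral_FF {α : ℝ} (h0 : 0 < α) (h1 : α < 1) (θ : ℝ) :
    ∫ x, FF α θ x = -((cst α * |θ| ^ α : ℝ) : ℂ) := by
  rcases eq_or_ne θ 0 with rfl | hθ
  · have : FF α 0 = fun _ => 0 := by
      ext x; unfold FF; simp
    rw [this]
    simp [Real.zero_rpow h0.ne']
  · have habs : 0 < |θ| := abs_pos.2 hθ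
    have h2 : ∀ x, FF α θ x = ((|θ| ^ (1 + α) : ℝ) : ℂ) * FF α 1 (θ * x) := by
      intro x
      unfold FF w
      rw [abs_mul, Real.mul_rpow (abs_nonneg _) (abs_nonneg _)]
      have h3 : |θ| ^ (1 + α) * |θ| ^ (-1 - α) = 1 := by
        rw [← Real.rpow_add habs]
        rw [show 1 + α + (-1 - α) = 0 by ring, Real.rpow_zero]
      have h4 : (((|θ| ^ (1 + α) : ℝ) : ℂ)) * ((|θ| ^ (-1 - α) * |x| ^ (-1 - α) : ℝ) : ℂ) =
          ((|x| ^ (-1 - α) : ℝ) : ℂ) := by
        rw [← Complex.ofReal_mul, ← mul_assoc, h3, one_mul]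
      rw [← mul_assoc, h4]
      congr 3
      push_cast
      ring
    simp_rw [h2]
    rw [integral_const_mul, Measure.integral_comp_mul_left (fun y => FF α 1 y) θ,
      integral_FF_one h0 h1, abs_inv]
    rw [Complex.real_smul, Real.rpow_add habs, Real.rpow_one]
    push_cast
    have : ((|θ| : ℝ) : ℂ) ≠ 0 := by exact_mod_cast habs.ne'
    field_simp

/-- The Lévy measure. -/
noncomputable def lev (α : ℝ) : Measure ℝ :=
  volume.withDensity (fun x => ENNReal.ofReal ((cst α)⁻¹ * w α x))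

theorem measurable_dens (α : ℝ) : Measurable (fun x => ENNReal.ofReal ((cst α)⁻¹ * w α x)) :=
  ((measurable_w α).const_mul _).ennreal_ofReal

/-- The shells: `|x| ≥ 1`, and `2^(-m-1) ≤ |x| < 2^(-m)`. -/
def sh : ℕ → Set ℝ
  | 0 => {x | 1 ≤ |x|}
  | (m + 1) => {x | (1 / 2 : ℝ) ^ (m + 1) ≤ |x| ∧ |x| < (1 / 2 : ℝ) ^ m}

theorem measurableSet_sh (m : ℕ) : MeasurableSet (sh m) := by
  cases m with
  | zero => exact measurableSet_le measurable_const continuous_abs.measurable
  | succ m =>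
    exact (measurableSet_le measurable_const continuous_abs.measurable).inter
      (measurableSet_lt continuous_abs.measurable measurable_const)

theorem sh_lower {m : ℕ} {x : ℝ} (h : x ∈ sh m) : (1 / 2 : ℝ) ^ m ≤ |x| := by
  cases m with
  | zero => simpa [sh] using h
  | succ m => exact h.1

theorem sh_upper {m l : ℕ} (hml : m < l) {x : ℝ} (h : x ∈ sh l) : |x| < (1 / 2 : ℝ) ^ m := by
  cases l with
  | zero => omega
  | succ l =>
    refine lt_of_lt_of_le h.2 ?_
    exact pow_le_pow_of_le_one (by norm_num) (by norm_num) (by omega)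

theorem pairwise_sh : Pairwise (Function.onFun Disjoint sh) := by
  intro m l hml
  rw [Function.onFun, Set.disjoint_left]
  intro x h1 h2
  rcases lt_or_gt_of_ne hml with h | h
  · exact absurd (sh_lower h1) (not_le.2 (sh_upper h h2))
  · exact absurd (sh_lower h2) (not_le.2 (sh_upper h h1))

theorem iUnion_sh : (⋃ m, sh m) = {0}ᶜ := by
  ext x
  simp only [mem_iUnion, mem_compl_iff, mem_singleton_iff]
  constructor
  · rintro ⟨m, hm⟩ rfl
    have := sh_lower hm
    rw [abs_zero] at this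
    have h2 : (0 : ℝ) < (1 / 2) ^ m := by positivity
    linarith
  · intro hx
    by_cases h1 : 1 ≤ |x|
    · exact ⟨0, h1⟩
    · push Not at h1
      have hx0 : 0 < |x| := abs_pos.2 hx
      have hex : ∃ m : ℕ, (1 / 2 : ℝ) ^ m ≤ |x| := by
        obtain ⟨m, hm⟩ := exists_pow_lt_of_lt_one hx0 (show (1 / 2 : ℝ) < 1 by norm_num)
        exact ⟨m, hm.le⟩
      classical
      have h3 := Nat.find_spec hex
      have h4 : Nat.find hex ≠ 0 := by
        intro h
        rw [h, pow_zero] at h3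
        linarith
      obtain ⟨l, hl⟩ := Nat.exists_eq_succ_of_ne_zero h4
      refine ⟨l + 1, ?_, ?_⟩
      · rw [hl] at h3; exact h3
      · have := Nat.find_min hex (m := l) (by omega)
        exact not_le.1 this

/-- bound for the mass of the shells -/
theorem lev_sh_succ_le {α : ℝ} (h0 : 0 < α) (h1 : α < 1) (m : ℕ) :
    lev α (sh (m + 1)) ≤ ENNReal.ofReal ((cst α)⁻¹ * 8 * ((2 : ℝ) ^ α) ^ m) := by
  have hc := cst_pos h0 h1
  unfold lev
  rw [withDensity_apply _ (measurableSet_sh _)]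
  have hpt : ∀ x ∈ sh (m + 1), ENNReal.ofReal ((cst α)⁻¹ * w α x) ≤
      ENNReal.ofReal ((cst α)⁻¹ * ((1 / 2 : ℝ) ^ (m + 1)) ^ (-1 - α)) := by
    intro x hx
    apply ENNReal.ofReal_le_ofReal
    apply mul_le_mul_of_nonneg_left _ (inv_nonneg.2 hc.le)
    unfold w
    exact Real.rpow_le_rpow_of_nonpos (by positivity) (sh_lower hx) (by linarith)
  refine (setLIntegral_mono' (measurableSet_sh _) hpt).trans ?_
  rw [setLIntegral_const]
  have hvol : volume (sh (m + 1)) ≤ ENNReal.ofReal (2 * (1 / 2 : ℝ) ^ m) := by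
    have hsub : sh (m + 1) ⊆ Ioo (-(1 / 2 : ℝ) ^ m) ((1 / 2 : ℝ) ^ m) := by
      intro x hx
      exact abs_lt.1 hx.2
    refine (measure_mono hsub).trans ?_
    rw [Real.volume_Ioo]
    apply ENNReal.ofReal_le_ofReal
    linarith
  refine (mul_le_mul_right hvol _).trans ?_
  rw [← ENNReal.ofReal_mul (by positivity)]
  apply ENNReal.ofReal_le_ofReal
  have e1 : ((1 / 2 : ℝ) ^ (m + 1)) ^ (-1 - α) = 2 ^ (m + 1) * ((2 : ℝ) ^ α) ^ (m + 1) := by
    rw [one_div, inv_pow, Real.inv_rpow (by positivity), ← Real.rpow_neg (by positivity)]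
    rw [show -(-1 - α) = 1 + α by ring, Real.rpow_add (by positivity), Real.rpow_one]
    congr 1
    rw [← Real.rpow_natCast (2 ^ α), ← Real.rpow_natCast 2, ← Real.rpow_mul (by norm_num),
      ← Real.rpow_mul (by norm_num)]
    congr 1
    ring
  rw [e1]
  have e2 : (2 : ℝ) ^ α ≤ 2 := by
    calc (2 : ℝ) ^ α ≤ 2 ^ (1 : ℝ) := Real.rpow_le_rpow_of_exponent_le (by norm_num) h1.le
      _ = 2 := Real.rpow_one 2
  have e3 : (2 : ℝ) ^ (m + 1) * (1 / 2) ^ m = 2 := by
    rw [pow_succ, one_div, inv_pow]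
    field_simp
  have e4 : 0 ≤ ((2 : ℝ) ^ α) ^ m := by positivity
  calc (cst α)⁻¹ * (2 ^ (m + 1) * ((2 : ℝ) ^ α) ^ (m + 1)) * (2 * (1 / 2) ^ m)
      = (cst α)⁻¹ * (2 * ((2 : ℝ) ^ (m + 1) * (1 / 2) ^ m)) * (((2 : ℝ) ^ α) ^ m * (2 : ℝ) ^ α) := by
        rw [pow_succ ((2 : ℝ) ^ α)]; ring
    _ ≤ (cst α)⁻¹ * (2 * ((2 : ℝ) ^ (m + 1) * (1 / 2) ^ m)) * (((2 : ℝ) ^ α) ^ m * 2) := by
        gcongr
    _ = _ := by rw [e3]; ring

theorem lev_sh_zero_lt {α : ℝ} (h0 : 0 < α) (h1 : α < 1) : lev α (sh 0) < ∞ := by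
  have hc := cst_pos h0 h1
  unfold lev
  rw [withDensity_apply _ (measurableSet_sh _)]
  have hpt : ∀ x ∈ sh 0, ENNReal.ofReal ((cst α)⁻¹ * w α x) ≤
      ENNReal.ofReal ((cst α)⁻¹ * (min 1 |x| * w α x)) := by
    intro x hx
    have : (1 : ℝ) ≤ |x| := hx
    rw [min_eq_left this, one_mul]
  refine (setLIntegral_mono' (measurableSet_sh _) hpt).trans_lt ?_
  exact ((integrable_min_w h0 h1).const_mul _).integrableOn.lintegral_lt_top

theorem lev_sh_lt {α : ℝ} (h0 : 0 < α) (h1 : α < 1) (m : ℕ) : lev α (sh m) < ∞ := by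
  cases m with
  | zero => exact lev_sh_zero_lt h0 h1
  | succ m => exact (lev_sh_succ_le h0 h1 m).trans_lt ENNReal.ofReal_lt_top

theorem lev_sh_pos {α : ℝ} (h0 : 0 < α) (h1 : α < 1) (m : ℕ) : lev α (sh m) ≠ 0 := by
  have hc := cst_pos h0 h1
  unfold lev
  rw [withDensity_apply _ (measurableSet_sh _), ← pos_iff_ne_zero,
    setLIntegral_pos_iff (measurable_dens α)]
  have hsub : Ioo ((1 / 2 : ℝ) ^ m) (2 * (1 / 2 : ℝ) ^ m) ⊆
      Function.support (fun x => ENNReal.ofReal ((cst α)⁻¹ * w α x)) ∩ sh m := by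
    intro x hx
    have h2 : (0 : ℝ) < (1 / 2) ^ m := by positivity
    have hx0 : 0 < x := h2.trans hx.1
    refine ⟨?_, ?_⟩
    · rw [Function.mem_support]
      have : 0 < (cst α)⁻¹ * w α x :=
        mul_pos (inv_pos.2 hc) (Real.rpow_pos_of_pos (abs_pos.2 hx0.ne') _)
      exact (ENNReal.ofReal_pos.2 this).ne'
    · cases m with
      | zero =>
        show 1 ≤ |x|
        rw [abs_of_pos hx0]
        simpa using hx.1.le
      | succ m =>
        refine ⟨?_, ?_⟩
        · rw [abs_of_pos hx0]; exact hx.1.le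
        · rw [abs_of_pos hx0]
          have := hx.2
          rw [pow_succ] at this
          linarith
  refine lt_of_lt_of_le ?_ (measure_mono hsub)
  rw [Real.volume_Ioo]
  have h2 : (0 : ℝ) < (1 / 2) ^ m := by positivity
  rw [ENNReal.ofReal_pos]
  linarith

/-- rates of the levels -/
noncomputable def rr (α : ℝ) (m : ℕ) : ℝ≥0 := (lev α (sh m)).toNNReal

/-- mark laws -/
noncomputable def kk (α : ℝ) (m : ℕ) : Measure ℝ := ProbabilityTheory.cond (lev α) (sh m)

theorem isProb_kk {α : ℝ} (h0 : 0 < α) (h1 : α < 1) (m : ℕ) : IsProbabilityMeasure (kk α m) := by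
  unfold kk
  exact ProbabilityTheory.cond_isProbabilityMeasure_of_finite (lev_sh_pos h0 h1 m)
    (lev_sh_lt h0 h1 m).ne

theorem coe_rr {α : ℝ} (h0 : 0 < α) (h1 : α < 1) (m : ℕ) : (rr α m : ℝ≥0∞) = lev α (sh m) :=
  ENNReal.coe_toNNReal (lev_sh_lt h0 h1 m).ne

theorem rr_psi {α : ℝ} (h0 : 0 < α) (h1 : α < 1) (m : ℕ) (θ : ℝ) :
    (rr α m : ℂ) * psi (kk α m) θ = ((cst α)⁻¹ : ℝ) * ∫ x in sh m, FF α θ x := by
  have hc := cst_pos h0 h1
  unfold psi kk ProbabilityTheory.cond
  rw [integral_smul_measure, lev, restrict_withDensity (measurableSet_sh m),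
    integral_withDensity_eq_integral_toReal_smul (measurable_dens α)
      (ae_of_all _ fun x => ENNReal.ofReal_lt_top)]
  have e1 : ∀ x : ℝ, (ENNReal.ofReal ((cst α)⁻¹ * w α x)).toReal •
      (Complex.exp (θ * x * Complex.I) - 1) = (((cst α)⁻¹ : ℝ) : ℂ) * FF α θ x := by
    intro x
    rw [ENNReal.toReal_ofReal (mul_nonneg (inv_nonneg.2 hc.le) (w_nonneg α x)), Complex.real_smul]
    unfold FF
    push_cast
    ring
  simp_rw [e1]
  rw [integral_const_mul, ← lev]
  have e2 : (rr α m : ℂ) * ((((lev α (sh m))⁻¹).toReal : ℝ) : ℂ) = 1 := by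
    rw [ENNReal.toReal_inv]
    have h3 : ((rr α m : ℝ≥0) : ℝ) = (lev α (sh m)).toReal := rfl
    have h4 : (lev α (sh m)).toReal ≠ 0 :=
      ENNReal.toReal_ne_zero.2 ⟨lev_sh_pos h0 h1 m, (lev_sh_lt h0 h1 m).ne⟩
    have h5 : ((rr α m : ℝ≥0) : ℂ) = (((lev α (sh m)).toReal : ℝ) : ℂ) := by
      rw [← h3]
    rw [h5, ← Complex.ofReal_mul, mul_inv_cancel₀ h4, Complex.ofReal_one]
  rw [Complex.real_smul, ← mul_assoc, e2, one_mul]

theorem tendsto_Psi {α : ℝ} (h0 : 0 < α) (h1 : α < 1) (θ : ℝ) :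
    Tendsto (fun M => Psi (rr α) (kk α) M θ) atTop (𝓝 (-((|θ| ^ α : ℝ) : ℂ))) := by
  have hc := cst_pos h0 h1
  unfold Psi
  simp_rw [rr_psi h0 h1]
  have h2 : HasSum (fun m => ∫ x in sh m, FF α θ x) (∫ x in ⋃ m, sh m, FF α θ x) :=
    hasSum_integral_iUnion measurableSet_sh pairwise_sh (integrable_FF h0 h1 θ).integrableOn
  rw [iUnion_sh, MeasureTheory.restrict_compl_singleton, integral_FF h0 h1 θ] at h2
  have h3 := (h2.mul_left (((cst α)⁻¹ : ℝ) : ℂ)).tendsto_sum_nat
  convert h3 using 2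
  rw [mul_neg, ← Complex.ofReal_mul, ← mul_assoc, inv_mul_cancel₀ hc.ne', one_mul]

end Pool.Agent.P8H98.ST
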