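import Pool.Agent.P8H98.ST.Cover
import Pool.Agent.P8H98.ST.Stable

/-!
# The expected number of sets in the cover
-/

set_option autoImplicit false

open MeasureTheory ProbabilityTheory Set Filter Topology
open scoped NNReal ENNReal

namespace Pool.Agent.P8H98.ST

open Pool.Agent.W850.HT

theorem rr_succ_le {α : ℝ} (h0 : 0 < α) (h1 : α < 1) (m : ℕ) :
    (rr α (m + 1) : ℝ≥0∞) ≤ ENNReal.ofReal ((cst α)⁻¹ * 8 * (((2 : ℝ) ^ α) ^ m)) := by
  rw [coe_rr h0 h1]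
  exact lev_sh_succ_le h0 h1 m

theorem lintegral_kk_le {α : ℝ} (h0 : 0 < α) (h1 : α < 1) (m : ℕ) :
    ∫⁻ x, ENNReal.ofReal |x| ∂(kk α (m + 1)) ≤ ENNReal.ofReal ((1 / 2) ^ m) := by
  have : IsProbabilityMeasure (kk α (m + 1)) := isProb_kk h0 h1 _
  have h2 : ∀ᵐ x ∂(kk α (m + 1)), x ∈ sh (m + 1) := by
    unfold kk
    exact ProbabilityTheory.ae_cond_mem (measurableSet_sh _)
  have h3 : ∫⁻ x, ENNReal.ofReal |x| ∂(kk α (m + 1)) ≤
      ∫⁻ _, ENNReal.ofReal ((1 / 2) ^ m) ∂(kk α (m + 1)) := by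
    refine lintegral_mono_ae ?_
    filter_upwards [h2] with x hx
    exact ENNReal.ofReal_le_ofReal (sh_upper (Nat.lt_succ_self m) hx).le
  refine h3.trans ?_
  rw [lintegral_const, measure_univ, mul_one]

theorem term_le {α : ℝ} (h0 : 0 < α) (h1 : α < 1) (m : ℕ) :
    (rr α (m + 1) : ℝ≥0∞) * ∫⁻ x, ENNReal.ofReal |x| ∂(kk α (m + 1)) ≤
      ENNReal.ofReal ((cst α)⁻¹ * 8 * (((2 : ℝ) ^ α / 2) ^ m)) := by
  have hc := cst_pos h0 h1
  refine (mul_le_mul' (rr_succ_le h0 h1 m) (lintegral_kk_le h0 h1 m)).trans ?_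
  rw [← ENNReal.ofReal_mul (by positivity)]
  apply ENNReal.ofReal_le_ofReal
  rw [mul_assoc, ← mul_pow, mul_one_div]

theorem two_rpow_lt {α : ℝ} (h1 : α < 1) : (2 : ℝ) ^ α < 2 := by
  calc (2 : ℝ) ^ α < 2 ^ (1 : ℝ) := Real.rpow_lt_rpow_of_exponent_lt (by norm_num) h1
    _ = 2 := Real.rpow_one 2

theorem one_lt_two_rpow {α : ℝ} (h0 : 0 < α) : 1 < (2 : ℝ) ^ α :=
  Real.one_lt_rpow (by norm_num) h0

/-- geometric tails -/
theorem tsum_geo_tail {c q : ℝ} (hc : 0 ≤ c) (hq0 : 0 ≤ q) (hq : q < 1) (N : ℕ) :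
    ∑' m, ENNReal.ofReal (c * q ^ (m + N)) = ENNReal.ofReal (c * q ^ N * (1 - q)⁻¹) := by
  rw [← ENNReal.ofReal_tsum_of_nonneg (fun m => by positivity)]
  · congr 1
    rw [tsum_mul_left]
    simp_rw [pow_add]
    rw [tsum_mul_right, tsum_geometric_of_lt_one hq0 hq]
    ring
  · simp_rw [pow_add]
    exact ((summable_geometric_of_lt_one hq0 hq).mul_right _).mul_left _

section

variable {α : ℝ} (h0 : 0 < α) (h1 : α < 1)

theorem GG_cond (h0 : 0 < α) (h1 : α < 1) :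
    ∑' m, (rr α (m + 1) : ℝ≥0∞) * ∫⁻ x, ENNReal.ofReal |x| ∂(kk α (m + 1)) < ∞ := by
  have hc := cst_pos h0 h1
  have h2 := two_rpow_lt h1
  have h3 : (0 : ℝ) < 2 ^ α := by positivity
  refine (ENNReal.tsum_le_tsum (term_le h0 h1)).trans_lt ?_
  have h4 := tsum_geo_tail (c := (cst α)⁻¹ * 8) (q := (2 : ℝ) ^ α / 2) (by positivity)
    (by positivity) (by linarith) 0
  simp only [add_zero] at h4
  rw [h4]
  exact ENNReal.ofReal_lt_top

/-- measurable majorant of the tail -/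
noncomputable def tE (M : ℕ) (ω : MOm) : ℝ≥0∞ :=
  ∑' m, ENNReal.ofReal (lsum ab (m + M) ((1 : ℕ) : ℝ) ω)

theorem measurable_tE (M : ℕ) : Measurable (tE M) :=
  Measurable.tsum fun m => (measurable_lsum ab measurable_ab _ _).ennreal_ofReal

theorem tail_le_tE (M : ℕ) (ω : MOm) : ENNReal.ofReal (tail M 1 ω) ≤ tE M ω := by
  unfold tail tE
  by_cases hs : Summable (fun m => lsum ab (m + M) 1 ω)
  · rw [ENNReal.ofReal_tsum_of_nonneg (fun m => lsum_nonneg ab_nonneg _ _ _) hs]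
    simp
  · rw [tsum_eq_zero_of_not_summable hs]
    simp

theorem lint_tail_le (N : ℕ) [∀ m, IsProbabilityMeasure (kk α m)] (h0 : 0 < α) (h1 : α < 1) :
    ∫⁻ ω, tE (N + 1) ω ∂(MP (rr α) (kk α)) ≤
      ENNReal.ofReal ((cst α)⁻¹ * 8 * (((2 : ℝ) ^ α / 2) ^ N) * (1 - (2 : ℝ) ^ α / 2)⁻¹) := by
  have hc := cst_pos h0 h1
  have h2 := two_rpow_lt h1
  have h3 : (0 : ℝ) < 2 ^ α := by positivity
  unfold tE
  rw [lintegral_tsum fun m => (measurable_lsum ab measurable_ab _ _).ennreal_ofReal.aemeasurable]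
  rw [← tsum_geo_tail (c := (cst α)⁻¹ * 8) (q := (2 : ℝ) ^ α / 2) (by positivity)
    (by positivity) (by linarith) N]
  refine ENNReal.tsum_le_tsum fun m => ?_
  refine (lintegral_lsum_le (rr α) (kk α) measurable_ab ab_nonneg _ 1).trans ?_
  rw [Nat.cast_one, one_mul]
  exact term_le h0 h1 (m + N)

theorem lint_cnt_le (N : ℕ) [∀ m, IsProbabilityMeasure (kk α m)] (h0 : 0 < α) (h1 : α < 1) :
    ∫⁻ ω, ENNReal.ofReal (∑ m ∈ Finset.range (N + 1), lsum one1 m 1 ω) ∂(MP (rr α) (kk α)) ≤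
      ENNReal.ofReal ((rr α 0 : ℝ) + (cst α)⁻¹ * 8 * (((2 : ℝ) ^ α) ^ N) *
        ((2 : ℝ) ^ α - 1)⁻¹) := by
  have hc := cst_pos h0 h1
  have h2 := one_lt_two_rpow h0
  have h2' : (0 : ℝ) < (2 : ℝ) ^ α - 1 := by linarith
  have h3 : (0 : ℝ) < 2 ^ α := by positivity
  have h5 : ∀ ω : MOm, ENNReal.ofReal (∑ m ∈ Finset.range (N + 1), lsum one1 m 1 ω) =
      ∑ m ∈ Finset.range (N + 1), ENNReal.ofReal (lsum one1 m ((1 : ℕ) : ℝ) ω) := by
    intro ω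
    rw [ENNReal.ofReal_sum_of_nonneg (fun m _ => lsum_nonneg one1_nonneg _ _ _)]
    simp
  simp_rw [h5]
  rw [lintegral_finsetSum (Finset.range (N + 1)) (f := fun m (ω : MOm) =>
    ENNReal.ofReal (lsum one1 m ((1 : ℕ) : ℝ) ω))
    fun m _ => (measurable_lsum one1 measurable_one1 _ _).ennreal_ofReal]
  have h6 : ∀ m : ℕ, ∫⁻ ω, ENNReal.ofReal (lsum one1 m ((1 : ℕ) : ℝ) ω) ∂(MP (rr α) (kk α)) ≤
      rr α m := by
    intro m
    refine (lintegral_lsum_le (rr α) (kk α) measurable_one1 one1_nonneg _ 1).trans ?_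
    unfold one1
    simp
  refine (Finset.sum_le_sum fun m _ => h6 m).trans ?_
  rw [Finset.sum_range_succ', add_comm]
  have h7 : ∑ m ∈ Finset.range N, (rr α (m + 1) : ℝ≥0∞) ≤
      ENNReal.ofReal ((cst α)⁻¹ * 8 * (((2 : ℝ) ^ α) ^ N) * ((2 : ℝ) ^ α - 1)⁻¹) := by
    refine (Finset.sum_le_sum fun m _ => rr_succ_le h0 h1 m).trans ?_
    rw [← ENNReal.ofReal_sum_of_nonneg (fun m _ => by positivity)]
    apply ENNReal.ofReal_le_ofReal
    rw [← Finset.mul_sum, geom_sum_eq h2.ne', mul_assoc _ (((2 : ℝ) ^ α) ^ N), ← div_eq_mul_inv]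
    gcongr
    linarith
  rw [ENNReal.ofReal_add (by positivity) (by positivity)]
  refine add_le_add ?_ h7
  rw [ENNReal.ofReal_coe_nnreal]

/-- the constant of the covering estimate -/
noncomputable def CC (α : ℝ) : ℝ :=
  (rr α 0 : ℝ) + (cst α)⁻¹ * 8 * ((2 : ℝ) ^ α - 1)⁻¹ +
    2 * ((cst α)⁻¹ * 8 * (1 - (2 : ℝ) ^ α / 2)⁻¹)

theorem CC_nonneg (h0 : 0 < α) (h1 : α < 1) : 0 ≤ CC α := by
  have hc := cst_pos h0 h1
  have h2 := two_rpow_lt h1
  have h3 := one_lt_two_rpow h0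
  have h4 : (0 : ℝ) < (2 : ℝ) ^ α - 1 := by linarith
  have h5 : (0 : ℝ) < 1 - (2 : ℝ) ^ α / 2 := by linarith
  unfold CC
  positivity

/-- measurable majorant of the clock -/
noncomputable def hE (N : ℕ) (ω : MOm) : ℝ≥0∞ :=
  ENNReal.ofReal (∑ m ∈ Finset.range (N + 1), lsum one1 m 1 ω) +
    ENNReal.ofReal (2 ^ (N + 1)) * tE (N + 1) ω

theorem measurable_hE (N : ℕ) : Measurable (hE N) :=
  ((Finset.measurable_sum _ fun m _ => measurable_lsum one1 measurable_one1 m 1).ennreal_ofReal).add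
    ((measurable_tE (N + 1)).const_mul _)

theorem hh_le_hE (N : ℕ) (ω : MOm) : ENNReal.ofReal (hh (N + 1) 1 ω) ≤ hE N ω := by
  unfold hh hE
  rw [ENNReal.ofReal_add (Finset.sum_nonneg fun m _ => lsum_nonneg one1_nonneg _ _ _)
      (mul_nonneg (by positivity) (tail_nonneg _ _ _)), ENNReal.ofReal_mul (by positivity)]
  exact add_le_add le_rfl (mul_le_mul_right (tail_le_tE _ _) _)

theorem lint_hE_le (N : ℕ) [∀ m, IsProbabilityMeasure (kk α m)] (h0 : 0 < α) (h1 : α < 1) :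
    ∫⁻ ω, hE N ω ∂(MP (rr α) (kk α)) ≤ ENNReal.ofReal (CC α * ((2 : ℝ) ^ α) ^ N) := by
  have hc := cst_pos h0 h1
  have h2 := two_rpow_lt h1
  have h3 := one_lt_two_rpow h0
  have h4 : (0 : ℝ) < (2 : ℝ) ^ α - 1 := by linarith
  have h5 : (0 : ℝ) < 1 - (2 : ℝ) ^ α / 2 := by linarith
  unfold hE
  have hm : Measurable fun ω : MOm =>
      ENNReal.ofReal (∑ m ∈ Finset.range (N + 1), lsum one1 m 1 ω) :=
    (Finset.measurable_sum _ fun m _ => measurable_lsum one1 measurable_one1 m 1).ennreal_ofReal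
  rw [lintegral_add_left hm, lintegral_const_mul' _ _ ENNReal.ofReal_ne_top]
  refine (add_le_add (lint_cnt_le N h0 h1) (mul_le_mul_right (lint_tail_le N h0 h1) _)).trans ?_
  rw [← ENNReal.ofReal_mul (by positivity), ← ENNReal.ofReal_add (by positivity) (by positivity)]
  apply ENNReal.ofReal_le_ofReal
  have hq : (1 : ℝ) ≤ ((2 : ℝ) ^ α) ^ N := one_le_pow₀ h3.le
  have e2 : (2 : ℝ) ^ (N + 1) * ((cst α)⁻¹ * 8 * ((2 : ℝ) ^ α / 2) ^ N *
      (1 - (2 : ℝ) ^ α / 2)⁻¹) =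
      2 * ((cst α)⁻¹ * 8 * (1 - (2 : ℝ) ^ α / 2)⁻¹) * ((2 : ℝ) ^ α) ^ N := by
    rw [div_pow, pow_succ]
    field_simp
  rw [e2]
  unfold CC
  have h6 : (0 : ℝ) ≤ rr α 0 := NNReal.coe_nonneg _
  nlinarith [mul_le_mul_of_nonneg_left hq h6]

theorem ae_tendsto_hh [∀ m, IsProbabilityMeasure (kk α m)] (h0 : 0 < α) (h1 : α < 1) {b : ℝ}
    (hb : 0 < b) (hbq : b * (2 : ℝ) ^ α < 1) :
    ∀ᵐ ω ∂(MP (rr α) (kk α)), Tendsto (fun N : ℕ => b ^ N * hh (N + 1) 1 ω) atTop (𝓝 0) := by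
  have hm : ∀ N : ℕ, Measurable fun ω => ENNReal.ofReal (b ^ N) * hE N ω := fun N =>
    (measurable_hE N).const_mul _
  have h2 : ∫⁻ ω, ∑' N : ℕ, ENNReal.ofReal (b ^ N) * hE N ω ∂(MP (rr α) (kk α)) ≠ ∞ := by
    rw [lintegral_tsum fun N => (hm N).aemeasurable]
    refine ne_top_of_le_ne_top ?_ (ENNReal.tsum_le_tsum (g := fun N : ℕ =>
      ENNReal.ofReal (CC α * (b * (2 : ℝ) ^ α) ^ (N + 0))) fun N => ?_)
    · rw [tsum_geo_tail (CC_nonneg h0 h1) (by positivity) hbq 0]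
      exact ENNReal.ofReal_ne_top
    · rw [lintegral_const_mul' _ _ ENNReal.ofReal_ne_top]
      refine (mul_le_mul_right (lint_hE_le N h0 h1) _).trans ?_
      rw [← ENNReal.ofReal_mul (by positivity)]
      apply ENNReal.ofReal_le_ofReal
      rw [mul_pow, add_zero]
      exact le_of_eq (by ring)
  have h3 := ae_lt_top (Measurable.tsum hm) h2
  filter_upwards [h3] with ω hω
  have h4 : Tendsto (fun N : ℕ => ENNReal.ofReal (b ^ N) * hE N ω) atTop (𝓝 0) :=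
    ENNReal.tendsto_atTop_zero_of_tsum_ne_top hω.ne
  have h5 : Tendsto (fun N : ℕ => ENNReal.ofReal (b ^ N * hh (N + 1) 1 ω)) atTop (𝓝 0) := by
    refine tendsto_of_tendsto_of_tendsto_of_le_of_le tendsto_const_nhds h4 (fun _ => bot_le)
      (fun N => ?_)
    simp only
    rw [ENNReal.ofReal_mul (by positivity)]
    exact mul_le_mul_right (hh_le_hE N ω) _
  have h6 := (ENNReal.tendsto_toReal ENNReal.zero_ne_top).comp h5
  simp only [ENNReal.toReal_zero] at h6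
  refine h6.congr fun N => ?_
  simp only [Function.comp]
  rw [ENNReal.toReal_ofReal (mul_nonneg (by positivity) (hh_nonneg _ _ _))]

end

end Pool.Agent.P8H98.ST
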