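import Pool.Agent.P8H98.ST.Proc

/-!
# Covering the range of the process
-/

set_option autoImplicit false

open MeasureTheory ProbabilityTheory Set Filter Topology
open scoped NNReal ENNReal

namespace Pool.Agent.P8H98.ST

open Pool.Agent.W850.HT

/-- the constant one -/
def one1 (_ : ℝ) : ℝ := 1

theorem one1_nonneg (x : ℝ) : 0 ≤ one1 x := zero_le_one

theorem measurable_one1 : Measurable one1 := measurable_const

/-- The number of points of level `m` in the window. -/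
noncomputable def cn (m : ℕ) (s t : ℝ) (ω : MOm) : ℕ :=
  ∑ k ∈ Finset.range ⌈t⌉₊, ∑ i ∈ Finset.range (ω (m, k)).1,
      if 0 < ((ω (m, k)).2 i).1 ∧ s < k + ((ω (m, k)).2 i).1 ∧ k + ((ω (m, k)).2 i).1 ≤ t
        then 1 else 0

theorem lsum_one_sub (m : ℕ) {s t : ℝ} (hst : s ≤ t) (ω : MOm) :
    lsum one1 m t ω - lsum one1 m s ω = cn m s t ω := by
  rw [lsum_sub one1 m hst le_rfl]
  unfold cn one1
  push_cast
  rfl

theorem lsum_eq_of_cn (m : ℕ) {s t : ℝ} (hst : s ≤ t) (ω : MOm) (h : cn m s t ω = 0) :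
    lsum id m t ω = lsum id m s ω := by
  have h1 := lsum_sub id m hst le_rfl ω
  have h2 : lsum id m t ω - lsum id m s ω = 0 := by
    rw [h1]
    refine Finset.sum_eq_zero fun k hk => Finset.sum_eq_zero fun i hi => ?_
    unfold cn at h
    rw [Finset.sum_eq_zero_iff] at h
    have h3 := h k hk
    rw [Finset.sum_eq_zero_iff] at h3
    have h4 := h3 i hi
    split_ifs at h4 with h5
    rw [if_neg h5]
  linarith

/-- The counting clock. -/
noncomputable def hh (M : ℕ) (t : ℝ) (ω : MOm) : ℝ :=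
  (∑ m ∈ Finset.range M, lsum one1 m t ω) + 2 ^ M * tail M t ω

theorem hh_nonneg (M : ℕ) (t : ℝ) (ω : MOm) : 0 ≤ hh M t ω := by
  unfold hh
  have h1 : 0 ≤ ∑ m ∈ Finset.range M, lsum one1 m t ω :=
    Finset.sum_nonneg fun m _ => lsum_nonneg one1_nonneg m t ω
  have h2 := tail_nonneg M t ω
  positivity

theorem hh_mono (M : ℕ) {ω : MOm} (h : ω ∈ GG) : Monotone (fun t => hh M t ω) := by
  intro s t hst
  simp only [hh]
  have h1 : ∑ m ∈ Finset.range M, lsum one1 m s ω ≤ ∑ m ∈ Finset.range M, lsum one1 m t ω :=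
    Finset.sum_le_sum fun m _ => lsum_mono one1_nonneg m ω hst
  have h2 : tail M s ω ≤ tail M t ω := tail_mono M h hst
  have h3 : (2 : ℝ) ^ M * tail M s ω ≤ 2 ^ M * tail M t ω := by gcongr
  linarith

theorem abs_XX_sub_lt (M : ℕ) {ω : MOm} (h : ω ∈ GG) {s t : ℝ} (hst : s ≤ t)
    (hd : hh M t ω - hh M s ω < 1) : |XX t ω - XX s ω| ≤ (1 / 2) ^ M := by
  have h2 : tail M s ω ≤ tail M t ω := tail_mono M h hst
  have h2M : (0 : ℝ) < 2 ^ M := by positivity
  have h3 : 0 ≤ 2 ^ M * (tail M t ω - tail M s ω) := mul_nonneg h2M.le (sub_nonneg.2 h2)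
  have h4 : ∑ m ∈ Finset.range M, (lsum one1 m t ω - lsum one1 m s ω) =
      ((∑ m ∈ Finset.range M, cn m s t ω : ℕ) : ℝ) := by
    push_cast
    exact Finset.sum_congr rfl fun m _ => lsum_one_sub m hst ω
  have h5 : hh M t ω - hh M s ω = ((∑ m ∈ Finset.range M, cn m s t ω : ℕ) : ℝ) +
      2 ^ M * (tail M t ω - tail M s ω) := by
    rw [← h4, Finset.sum_sub_distrib]
    unfold hh
    ring
  rw [h5] at hd
  have h6 : ∑ m ∈ Finset.range M, cn m s t ω = 0 := by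
    have : ((∑ m ∈ Finset.range M, cn m s t ω : ℕ) : ℝ) < 1 := by linarith
    exact_mod_cast Nat.lt_one_iff.1 (by exact_mod_cast this)
  have h7 : psum M t ω = psum M s ω := by
    unfold psum
    refine Finset.sum_congr rfl fun m hm => ?_
    exact lsum_eq_of_cn m hst ω ((Finset.sum_eq_zero_iff.1 h6) m hm)
  have h8 := abs_incr_le M h hst
  rw [h7] at h8
  have h9 : |XX t ω - XX s ω| ≤ tail M t ω - tail M s ω := by
    rwa [sub_sub_sub_cancel_right] at h8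
  refine h9.trans ?_
  rw [h6, Nat.cast_zero, zero_add] at hd
  rw [one_div, inv_pow, ← one_div, le_div_iff₀ h2M]
  linarith

theorem abs_XX_sub_le_of_floor (M : ℕ) {ω : MOm} (h : ω ∈ GG) {s t : ℝ}
    (hd : ⌊hh M t ω⌋₊ = ⌊hh M s ω⌋₊) : |XX t ω - XX s ω| ≤ (1 / 2) ^ M := by
  have key : ∀ a b : ℝ, ⌊hh M a ω⌋₊ = ⌊hh M b ω⌋₊ → hh M a ω - hh M b ω < 1 := by
    intro a b hab
    have h1 := Nat.lt_floor_add_one (hh M a ω)
    have h2 := Nat.floor_le (hh_nonneg M b ω)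
    rw [hab] at h1
    linarith
  rcases le_total s t with hst | hst
  · exact abs_XX_sub_lt M h hst (key t s hd)
  · rw [abs_sub_comm]
    exact abs_XX_sub_lt M h hst (key s t hd.symm)

/-- The covering inequality for measures on the graph. -/
theorem cover (M : ℕ) {ω : MOm} (h : ω ∈ GG) (μ : Measure (ℝ × ℝ)) (K : Set (ℝ × ℝ))
    (hK : K ⊆ {p : ℝ × ℝ | p.1 ∈ Set.Icc (0 : ℝ) 1 ∧ p.2 = XX p.1 ω}) (B : ℝ≥0∞)
    (hB : ∀ x : ℝ, μ {p : ℝ × ℝ | |p.2 - x| ≤ (1 / 2) ^ M} ≤ B) :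
    μ K ≤ (⌊hh M 1 ω⌋₊ + 1 : ℕ) * B := by
  have h1 : K ⊆ ⋃ j ∈ Finset.range (⌊hh M 1 ω⌋₊ + 1), (K ∩ {p | ⌊hh M p.1 ω⌋₊ = j}) := by
    intro p hp
    simp only [Finset.mem_range, mem_iUnion, mem_inter_iff, exists_prop]
    refine ⟨⌊hh M p.1 ω⌋₊, ?_, hp, rfl⟩
    rw [Nat.lt_add_one_iff]
    exact Nat.floor_mono (hh_mono M h (hK hp).1.2)
  refine (measure_mono h1).trans ((measure_biUnion_finset_le _ _).trans ?_)
  have h2 : ∀ j ∈ Finset.range (⌊hh M 1 ω⌋₊ + 1), μ (K ∩ {p | ⌊hh M p.1 ω⌋₊ = j}) ≤ B := by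
    intro j _
    rcases (K ∩ {p : ℝ × ℝ | ⌊hh M p.1 ω⌋₊ = j}).eq_empty_or_nonempty with he | ⟨q, hq⟩
    · rw [he, measure_empty]; exact bot_le
    · refine (measure_mono ?_).trans (hB q.2)
      intro p hp
      show |p.2 - q.2| ≤ (1 / 2) ^ M
      rw [(hK hp.1).2, (hK hq.1).2]
      exact abs_XX_sub_le_of_floor M h (hp.2.trans hq.2.symm)
  refine (Finset.sum_le_sum h2).trans ?_
  rw [Finset.sum_const, Finset.card_range, nsmul_eq_mul]

end Pool.Agent.P8H98.ST
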