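import Mathlib

/-!
# Small balls and Fourier decay of a projection
-/

set_option autoImplicit false

open MeasureTheory ProbabilityTheory Set Filter Topology
open scoped NNReal ENNReal

namespace Pool.Agent.P8H98.ST

/-- the standard Gaussian law -/
noncomputable def ga : Measure ℝ := gaussianReal 0 1

instance : IsProbabilityMeasure ga := by unfold ga; infer_instance

theorem ga_le (η : ℝ) (hη : 0 ≤ η) : ga.real (Icc (-η) η) ≤ 2 * η := by
  have h1 : ga (Icc (-η) η) ≤ ENNReal.ofReal (2 * η) := by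
    unfold ga
    rw [gaussianReal_apply _ one_ne_zero]
    have h2 : ∫⁻ x in Icc (-η) η, gaussianPDF 0 1 x ≤ ∫⁻ _ in Icc (-η) η, 1 := by
      refine lintegral_mono fun x => ?_
      rw [gaussianPDF_def]
      simp only
      rw [← ENNReal.ofReal_one]
      apply ENNReal.ofReal_le_ofReal
      rw [gaussianPDFReal_def]
      simp only
      have h3 : (1 : ℝ) ≤ √(2 * Real.pi * ((1 : ℝ≥0) : ℝ)) := by
        rw [Real.one_le_sqrt]
        have := Real.pi_gt_three
        simp only [NNReal.coe_one, mul_one]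
        linarith
      have h4 : Real.exp (-(x - 0) ^ 2 / (2 * ((1 : ℝ≥0) : ℝ))) ≤ 1 := by
        rw [Real.exp_le_one_iff]
        simp only [NNReal.coe_one, mul_one, sub_zero]
        have := sq_nonneg x
        linarith
      exact mul_le_one₀ (inv_le_one_of_one_le₀ h3) (Real.exp_pos _).le h4
    refine h2.trans ?_
    rw [setLIntegral_one, Real.volume_Icc]
    apply ENNReal.ofReal_le_ofReal
    linarith
  rw [measureReal_def]
  exact ENNReal.toReal_le_of_le_ofReal (by linarith) h1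

theorem integral_ga (y : ℝ) :
    ∫ u, Complex.exp (((u * y : ℝ) : ℂ) * Complex.I) ∂ga = ((Real.exp (-y ^ 2 / 2) : ℝ) : ℂ) := by
  have h1 := charFun_apply_real (μ := ga) y
  have h2 := charFun_gaussianReal (μ := 0) (v := 1) y
  unfold ga at h1 ⊢
  rw [h2] at h1
  have h3 : ∀ u : ℝ, Complex.exp (((u * y : ℝ) : ℂ) * Complex.I) =
      Complex.exp (y * u * Complex.I) := by
    intro u; congr 1; push_cast; ring
  simp_rw [h3]
  rw [← h1, Complex.ofReal_exp]
  congr 1
  push_cast
  simp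
  ring

variable (μ : Measure (ℝ × ℝ)) [IsProbabilityMeasure μ]

/-- the transform of the second marginal, centred and rescaled -/
noncomputable def Fu (x δ u : ℝ) : ℂ :=
  ∫ p : ℝ × ℝ, Complex.exp (((u * ((p.2 - x) / δ) : ℝ) : ℂ) * Complex.I) ∂μ

theorem norm_cexp_ofReal (a : ℝ) : ‖Complex.exp ((a : ℂ) * Complex.I)‖ = 1 :=
  Complex.norm_exp_ofReal_mul_I a

theorem norm_Fu_le_one (x δ u : ℝ) : ‖Fu μ x δ u‖ ≤ 1 := by
  unfold Fu
  refine (norm_integral_le_integral_norm _).trans ?_
  simp_rw [norm_cexp_ofReal]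
  simp

omit [IsProbabilityMeasure μ] in
theorem norm_Fu_eq (x δ u : ℝ) :
    ‖Fu μ x δ u‖ = ‖∫ p : ℝ × ℝ, Complex.exp (((((0 : ℝ), u / δ) : ℝ × ℝ).1 * p.1 +
      (((0 : ℝ), u / δ) : ℝ × ℝ).2 * p.2 : ℝ) * Complex.I) ∂μ‖ := by
  have h1 : Fu μ x δ u = Complex.exp (((-(u * x / δ) : ℝ) : ℂ) * Complex.I) *
      ∫ p : ℝ × ℝ, Complex.exp (((((0 : ℝ), u / δ) : ℝ × ℝ).1 * p.1 +
      (((0 : ℝ), u / δ) : ℝ × ℝ).2 * p.2 : ℝ) * Complex.I) ∂μ := by
    unfold Fu
    rw [← integral_const_mul]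
    refine integral_congr_ae (ae_of_all _ fun p => ?_)
    simp only
    rw [← Complex.exp_add]
    congr 1
    push_cast
    ring
  rw [h1, norm_mul, norm_cexp_ofReal, one_mul]

theorem integral_Fu (x δ : ℝ) :
    ∫ u, Fu μ x δ u ∂ga = ((∫ p : ℝ × ℝ, Real.exp (-((p.2 - x) / δ) ^ 2 / 2) ∂μ : ℝ) : ℂ) := by
  unfold Fu
  rw [integral_integral_swap]
  · simp_rw [integral_ga]
    rw [integral_complex_ofReal]
  · refine Integrable.of_bound ?_ 1 (ae_of_all _ ?_)
    · apply Measurable.aestronglyMeasurable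
      unfold Function.uncurry
      fun_prop
    · intro q
      rw [Function.uncurry, norm_cexp_ofReal]

theorem small_ball {C s : ℝ} (hC : 0 ≤ C) (hs : 0 ≤ s)
    (hμ : ∀ ξ : ℝ × ℝ, 1 ≤ ‖ξ‖ →
      ‖∫ p, Complex.exp (((ξ.1 * p.1 + ξ.2 * p.2 : ℝ) : ℂ) * Complex.I) ∂μ‖ ≤ C * ‖ξ‖ ^ (-s / 2))
    {δ η : ℝ} (hδ : 0 < δ) (hη : δ ≤ η) (x : ℝ) :
    μ.real {p : ℝ × ℝ | |p.2 - x| ≤ δ} ≤
      Real.exp (1 / 2) * (2 * η + C * (η / δ) ^ (-s / 2)) := by
  have hη0 : 0 < η := hδ.trans_le hη
  have hr1 : 1 ≤ η / δ := by rwa [one_le_div hδ]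
  -- lower bound
  have hmS : MeasurableSet {p : ℝ × ℝ | |p.2 - x| ≤ δ} := by
    apply measurableSet_le
    · exact (measurable_snd.sub_const x).abs
    · exact measurable_const
  have hint : Integrable (fun p : ℝ × ℝ => Real.exp (-((p.2 - x) / δ) ^ 2 / 2)) μ := by
    refine Integrable.of_bound ?_ 1 (ae_of_all _ fun p => ?_)
    · apply Measurable.aestronglyMeasurable; fun_prop
    · rw [Real.norm_eq_abs, abs_of_pos (Real.exp_pos _), Real.exp_le_one_iff]
      have := sq_nonneg ((p.2 - x) / δ)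
      linarith
  have hlow : Real.exp (-(1 / 2)) * μ.real {p : ℝ × ℝ | |p.2 - x| ≤ δ} ≤
      ∫ p : ℝ × ℝ, Real.exp (-((p.2 - x) / δ) ^ 2 / 2) ∂μ := by
    have h1 : ∫ p : ℝ × ℝ, {p : ℝ × ℝ | |p.2 - x| ≤ δ}.indicator
        (fun _ => Real.exp (-(1 / 2))) p ∂μ =
        Real.exp (-(1 / 2)) * μ.real {p : ℝ × ℝ | |p.2 - x| ≤ δ} := by
      rw [integral_indicator_const _ hmS, smul_eq_mul, mul_comm]
    rw [← h1]
    refine integral_mono_ae ?_ hint (ae_of_all _ fun p => ?_)
    · exact (integrable_const _).indicator hmS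
    · simp only
      by_cases hp : p ∈ {p : ℝ × ℝ | |p.2 - x| ≤ δ}
      · rw [indicator_of_mem hp]
        apply Real.exp_le_exp.2
        have h2 : ((p.2 - x) / δ) ^ 2 ≤ 1 := by
          rw [div_pow, div_le_one (by positivity)]
          exact sq_le_sq' (by linarith [(abs_le.1 (show |p.2 - x| ≤ δ from hp)).1])
            (abs_le.1 (show |p.2 - x| ≤ δ from hp)).2
        linarith
      · rw [indicator_of_notMem hp]
        exact (Real.exp_pos _).le
  -- upper bound
  have hup : ‖∫ u, Fu μ x δ u ∂ga‖ ≤ 2 * η + C * (η / δ) ^ (-s / 2) := by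
    refine (norm_integral_le_integral_norm _).trans ?_
    have hle : ∀ u : ℝ, ‖Fu μ x δ u‖ ≤ (Icc (-η) η).indicator (fun _ => (1 : ℝ)) u +
        C * (η / δ) ^ (-s / 2) := by
      intro u
      have hpos : 0 ≤ C * (η / δ) ^ (-s / 2) := by positivity
      by_cases hu : u ∈ Icc (-η) η
      · rw [indicator_of_mem hu]
        linarith [norm_Fu_le_one μ x δ u]
      · rw [indicator_of_notMem hu, zero_add]
        have hu1 : η < |u| := by
          by_contra hcon
          exact hu (abs_le.1 (not_lt.1 hcon))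
        have hn : ‖(((0 : ℝ), u / δ) : ℝ × ℝ)‖ = |u| / δ := by
          rw [Prod.norm_def]
          simp only [norm_zero, Real.norm_eq_abs, abs_div, abs_of_pos hδ]
          exact max_eq_right (by positivity)
        have h3 : η / δ ≤ |u| / δ := by gcongr
        rw [norm_Fu_eq]
        refine (hμ ((0 : ℝ), u / δ) ?_).trans ?_
        · rw [hn]; exact hr1.trans h3
        · rw [hn]
          apply mul_le_mul_of_nonneg_left _ hC
          exact Real.rpow_le_rpow_of_nonpos (by positivity) h3 (by linarith)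
    have hi : Integrable (fun u : ℝ => (Icc (-η) η).indicator (fun _ => (1 : ℝ)) u +
        C * (η / δ) ^ (-s / 2)) ga :=
      ((integrable_const _).indicator measurableSet_Icc).add (integrable_const _)
    refine (integral_mono_of_nonneg (ae_of_all _ fun _ => norm_nonneg _) hi
      (ae_of_all _ hle)).trans ?_
    rw [integral_add ((integrable_const _).indicator measurableSet_Icc) (integrable_const _),
      integral_indicator_const _ measurableSet_Icc]
    have := ga_le η hη0.le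
    simp only [smul_eq_mul, mul_one, integral_const, probReal_univ, one_mul]
    linarith
  rw [integral_Fu, Complex.norm_real, Real.norm_eq_abs] at hup
  have h5 := hlow.trans ((le_abs_self _).trans hup)
  have h6 : Real.exp (1 / 2) * Real.exp (-(1 / 2)) = 1 := by
    rw [← Real.exp_add]; simp
  calc μ.real {p : ℝ × ℝ | |p.2 - x| ≤ δ} = Real.exp (1 / 2) * (Real.exp (-(1 / 2)) *
      μ.real {p : ℝ × ℝ | |p.2 - x| ≤ δ}) := by rw [← mul_assoc, h6, one_mul]
    _ ≤ _ := mul_le_mul_of_nonneg_left h5 (Real.exp_pos _).le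

end Pool.Agent.P8H98.ST
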