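import Pool.Agent.P8H98.ST.Count
import Pool.Agent.P8H98.ST.Four

/-!
# The contradiction
-/

set_option autoImplicit false

open MeasureTheory ProbabilityTheory Set Filter Topology
open scoped NNReal ENNReal

namespace Pool.Agent.P8H98.ST

open Pool.Agent.W850.HT

/-- the ratio -/
noncomputable def bb : ℝ := (2 : ℝ) ^ (-(1 / 4) : ℝ)

theorem bb_pos : 0 < bb := by unfold bb; positivity

theorem bb_lt_one : bb < 1 := by
  unfold bb
  exact Real.rpow_lt_one_of_one_lt_of_neg (by norm_num) (by norm_num)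

theorem bb_mul : bb * (2 : ℝ) ^ (1 / 8 : ℝ) < 1 := by
  unfold bb
  rw [← Real.rpow_add (by norm_num)]
  exact Real.rpow_lt_one_of_one_lt_of_neg (by norm_num) (by norm_num)

theorem bb_pow (k : ℕ) : ((4 : ℝ) ^ k) ^ (-(3 / 4 : ℝ) / 2) = bb ^ (3 * k) := by
  unfold bb
  rw [← Real.rpow_natCast, ← Real.rpow_natCast, ← Real.rpow_mul (by norm_num),
    ← Real.rpow_mul (by norm_num), show (4 : ℝ) = 2 ^ (2 : ℝ) by norm_num,
    ← Real.rpow_mul (by norm_num)]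
  congr 1
  push_cast
  ring

theorem half_pow_le (k : ℕ) : (1 / 2 : ℝ) ^ k ≤ bb ^ (3 * k) := by
  rw [pow_mul]
  apply pow_le_pow_left₀ (by norm_num)
  unfold bb
  rw [← Real.rpow_natCast, ← Real.rpow_mul (by norm_num)]
  have h1 : (1 / 2 : ℝ) = 2 ^ (-1 : ℝ) := by
    rw [Real.rpow_neg_one]; norm_num
  rw [h1]
  apply Real.rpow_le_rpow_of_exponent_le (by norm_num)
  push_cast
  norm_num

/-- Deterministic contradiction. -/
theorem no_measure {ω : MOm} (h : ω ∈ GG)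
    (ht : Tendsto (fun N : ℕ => bb ^ N * hh (N + 1) 1 ω) atTop (𝓝 0))
    (μ : Measure (ℝ × ℝ)) (K : Set (ℝ × ℝ)) (hp : IsProbabilityMeasure μ)
    (hK : K ⊆ {p : ℝ × ℝ | p.1 ∈ Set.Icc (0 : ℝ) 1 ∧ p.2 = XX p.1 ω})
    (hK0 : μ Kᶜ = 0) (C : ℝ)
    (hC : ∀ ξ : ℝ × ℝ, 1 ≤ ‖ξ‖ →
      ‖∫ p, Complex.exp (((ξ.1 * p.1 + ξ.2 * p.2 : ℝ) : ℂ) * Complex.I) ∂μ‖
              ≤ C * ‖ξ‖ ^ (-(3 / 4 : ℝ) / 2)) : False := by
  have hC0 : 0 ≤ C := by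
    have h1 := hC ((1 : ℝ), (0 : ℝ)) (by simp [Prod.norm_def])
    have h2 : ‖(((1 : ℝ), (0 : ℝ)) : ℝ × ℝ)‖ = 1 := by simp [Prod.norm_def]
    rw [h2, Real.one_rpow, mul_one] at h1
    exact (norm_nonneg _).trans h1
  have hb := bb_pos
  have hKc : μ K = 1 := by
    have hle : μ K ≤ 1 := prob_le_one
    have h1 : (1 : ℝ≥0∞) ≤ μ K + μ Kᶜ := by
      rw [← measure_univ (μ := μ), ← Set.union_compl_self K]
      exact measure_union_le K Kᶜ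
    rw [hK0, add_zero] at h1
    exact le_antisymm hle h1
  -- the bound along M = 3 k
  have key : ∀ k : ℕ, (1 : ℝ) ≤ (hh (3 * k) 1 ω + 1) *
      (Real.exp (1 / 2) * ((2 + C) * bb ^ (3 * k))) := by
    intro k
    have h1 : ∀ x : ℝ, μ {p : ℝ × ℝ | |p.2 - x| ≤ (1 / 2) ^ (3 * k)} ≤
        (Real.toNNReal (Real.exp (1 / 2) * ((2 + C) * bb ^ (3 * k))) : ℝ≥0∞) := by
      intro x
      have hδ : (0 : ℝ) < (1 / 2) ^ (3 * k) := by positivity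
      have hη : ((1 : ℝ) / 2) ^ (3 * k) ≤ (1 / 2) ^ k :=
        pow_le_pow_of_le_one (by norm_num) (by norm_num) (by omega)
      have h2 := small_ball μ hC0 (s := 3 / 4) (by norm_num) hC hδ hη x
      have h3 : ((1 : ℝ) / 2) ^ k / (1 / 2) ^ (3 * k) = 4 ^ k := by
        rw [pow_mul, ← div_pow]
        norm_num
      rw [h3, bb_pow] at h2
      have h4 : μ.real {p : ℝ × ℝ | |p.2 - x| ≤ (1 / 2) ^ (3 * k)} ≤
          Real.exp (1 / 2) * ((2 + C) * bb ^ (3 * k)) := by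
        refine h2.trans ?_
        have h5 := half_pow_le k
        gcongr
        nlinarith
      rw [← ENNReal.ofReal, ← ofReal_measureReal]
      exact ENNReal.ofReal_le_ofReal h4
    have h6 := cover (3 * k) h μ K hK _ h1
    rw [hKc] at h6
    have h7 : (0 : ℝ) ≤ Real.exp (1 / 2) * ((2 + C) * bb ^ (3 * k)) := by positivity
    have h8 : ((⌊hh (3 * k) 1 ω⌋₊ + 1 : ℕ) : ℝ≥0∞) *
        (Real.toNNReal (Real.exp (1 / 2) * ((2 + C) * bb ^ (3 * k))) : ℝ≥0∞) =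
        ENNReal.ofReal (((⌊hh (3 * k) 1 ω⌋₊ + 1 : ℕ) : ℝ) *
          (Real.exp (1 / 2) * ((2 + C) * bb ^ (3 * k)))) := by
      rw [ENNReal.ofReal_mul (by positivity), ENNReal.ofReal_natCast]
      rfl
    rw [h8, ← ENNReal.ofReal_one, ENNReal.ofReal_le_ofReal_iff (by positivity)] at h6
    refine h6.trans ?_
    apply mul_le_mul_of_nonneg_right _ h7
    push_cast
    have := Nat.floor_le (hh_nonneg (3 * k) 1 ω)
    linarith
  -- the limit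
  have h1 : Tendsto (fun N : ℕ => bb ^ (N + 1) * hh (N + 1) 1 ω) atTop (𝓝 0) := by
    have := ht.const_mul bb
    rw [mul_zero] at this
    refine this.congr fun N => ?_
    rw [pow_succ]; ring
  have h2 : Tendsto (fun N : ℕ => bb ^ N * hh N 1 ω) atTop (𝓝 0) :=
    (tendsto_add_atTop_iff_nat 1).1 h1
  have h3 : Tendsto (fun k : ℕ => 3 * k) atTop atTop :=
    tendsto_id.const_mul_atTop' (by norm_num)
  have h4 := h2.comp h3
  have h5 : Tendsto (fun N : ℕ => bb ^ N) atTop (𝓝 0) :=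
    tendsto_pow_atTop_nhds_zero_of_lt_one hb.le bb_lt_one
  have h6 := h5.comp h3
  have h7 : Tendsto (fun k : ℕ => (hh (3 * k) 1 ω + 1) *
      (Real.exp (1 / 2) * ((2 + C) * bb ^ (3 * k)))) atTop (𝓝 0) := by
    have h8 := ((h4.add h6).const_mul (Real.exp (1 / 2) * (2 + C)))
    rw [add_zero, mul_zero] at h8
    refine h8.congr fun k => ?_
    simp only [Function.comp]
    ring
  have h9 := ge_of_tendsto h7 (Eventually.of_forall key)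
  linarith

theorem final_char {α : ℝ} (h0 : 0 < α) (h1 : α < 1) [∀ m, IsProbabilityMeasure (kk α m)]
    (hG : ∀ᵐ ω ∂(MP (rr α) (kk α)), ω ∈ GG) (s t : ℝ) (hs : 0 ≤ s) (hst : s ≤ t) (ξ : ℝ) :
    ∫ ω, Complex.exp (((ξ * (XX t ω - XX s ω) : ℝ) : ℂ) * Complex.I) ∂(MP (rr α) (kk α))
          = ((Real.exp (-(t - s) * |ξ| ^ α) : ℝ) : ℂ) := by
  have h2 := tendsto_single (rr α) (kk α) hG hs hst ξ
  have h3 : Tendsto (fun M => Complex.exp ((t - s : ℝ) * Psi (rr α) (kk α) M ξ)) atTop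
      (𝓝 (Complex.exp ((t - s : ℝ) * (-((|ξ| ^ α : ℝ) : ℂ))))) :=
    (Complex.continuous_exp.tendsto _).comp ((tendsto_Psi h0 h1 ξ).const_mul _)
  have h4 := tendsto_nhds_unique h2 h3
  have h5 : ∀ ω : MOm, Complex.exp (((ξ * (XX t ω - XX s ω) : ℝ) : ℂ) * Complex.I) =
      Complex.exp (ξ * Complex.I * ((XX t ω - XX s ω : ℝ) : ℂ)) := by
    intro ω; congr 1; push_cast; ring
  simp_rw [h5]
  rw [h4, Complex.ofReal_exp]
  congr 1
  push_cast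
  ring

theorem final (hall : ∀ (α : ℝ), 0 < α → α < 1 →
  ∀ (Ω : Type) [MeasurableSpace Ω] (P : Measure Ω) [IsProbabilityMeasure P] (X : ℝ → Ω → ℝ),
    (∀ t : ℝ, Measurable (X t)) →
    (∀ᵐ ω ∂P, X 0 ω = 0) →
    (∀ᵐ ω ∂P, ∀ t : ℝ, 0 ≤ t →
        ContinuousWithinAt (fun s => X s ω) (Set.Ici t) t ∧
        (0 < t → ∃ l : ℝ, Tendsto (fun s => X s ω) (𝓝[<] t) (𝓝 l))) →
    (∀ (n : ℕ) (t : Fin (n + 1) → ℝ), 0 ≤ t 0 → StrictMono t →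
        ProbabilityTheory.iIndepFun
          (fun (i : Fin n) (ω : Ω) => X (t i.succ) ω - X (t i.castSucc) ω) P) →
    (∀ s t : ℝ, 0 ≤ s → s ≤ t → ∀ ξ : ℝ,
        ∫ ω, Complex.exp (((ξ * (X t ω - X s ω) : ℝ) : ℂ) * Complex.I) ∂P
          = ((Real.exp (-(t - s) * |ξ| ^ α) : ℝ) : ℂ)) →
    ∀ᵐ ω ∂P,
      (∀ s : ℝ, 0 < s → s < 1 →
        ∃ (μ : Measure (ℝ × ℝ)) (K : Set (ℝ × ℝ)),
          IsProbabilityMeasure μ ∧ IsCompact K ∧
          K ⊆ {p : ℝ × ℝ | p.1 ∈ Set.Icc (0 : ℝ) 1 ∧ p.2 = X p.1 ω} ∧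
          μ Kᶜ = 0 ∧
          ∃ C : ℝ, ∀ ξ : ℝ × ℝ, 1 ≤ ‖ξ‖ →
            ‖∫ p, Complex.exp (((ξ.1 * p.1 + ξ.2 * p.2 : ℝ) : ℂ) * Complex.I) ∂μ‖
              ≤ C * ‖ξ‖ ^ (-s / 2)) ∧
      (∀ s : ℝ, 1 < s →
        ¬ ∃ (μ : Measure (ℝ × ℝ)) (K : Set (ℝ × ℝ)),
          IsProbabilityMeasure μ ∧ IsCompact K ∧
          K ⊆ {p : ℝ × ℝ | p.1 ∈ Set.Icc (0 : ℝ) 1 ∧ p.2 = X p.1 ω} ∧
          μ Kᶜ = 0 ∧
          ∃ C : ℝ, ∀ ξ : ℝ × ℝ, 1 ≤ ‖ξ‖ →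
            ‖∫ p, Complex.exp (((ξ.1 * p.1 + ξ.2 * p.2 : ℝ) : ℂ) * Complex.I) ∂μ‖
              ≤ C * ‖ξ‖ ^ (-s / 2))) : False := by
  have h0 : (0 : ℝ) < 1 / 8 := by norm_num
  have h1 : (1 / 8 : ℝ) < 1 := by norm_num
  haveI : ∀ m, IsProbabilityMeasure (kk (1 / 8) m) := isProb_kk h0 h1
  have hG : ∀ᵐ ω ∂(MP (rr (1 / 8)) (kk (1 / 8))), ω ∈ GG := ae_GG _ _ (GG_cond h0 h1)
  have h2 := hall (1 / 8) h0 h1 MOm (MP (rr (1 / 8)) (kk (1 / 8))) XX measurable_XX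
    (ae_of_all _ fun ω => XX_nonpos le_rfl ω)
    (ae_of_all _ fun ω t _ => ⟨XX_right t ω, fun _ => XX_left t ω⟩)
    (fun n t ht0 htm => XX_indep _ _ hG n t htm.monotone ht0)
    (fun s t hs hst ξ => final_char h0 h1 hG s t hs hst ξ)
  have h3 := ae_tendsto_hh h0 h1 bb_pos bb_mul
  obtain ⟨ω, hω1, hω2, hω3⟩ := (h2.and (hG.and h3)).exists
  obtain ⟨μ, K, hp, -, hK, hK0, C, hC⟩ := hω1.1 (3 / 4) (by norm_num) (by norm_num)
  exact no_measure hω2 hω3 μ K hp hK hK0 C hC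

end Pool.Agent.P8H98.ST
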