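import Pool.Agent.P8H98.ST.Block

/-!
# Compound Poisson processes: one level
-/

set_option autoImplicit false

open MeasureTheory ProbabilityTheory Set Filter Topology
open scoped NNReal ENNReal

namespace Pool.Agent.P8H98.ST

open Pool.Agent.W850.HT

/-- The sum of `f` over the marks of the points of the block `b` in `(0, s]`. -/
noncomputable def bsum (f : ℝ → ℝ) (b : MBlk) (s : ℝ) : ℝ :=
  ∑ i ∈ Finset.range b.1, if 0 < (b.2 i).1 ∧ (b.2 i).1 ≤ s then f (b.2 i).2 else 0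

/-- The sum of `f` over the marks of the points of level `m` in `(0, t]`. -/
noncomputable def lsum (f : ℝ → ℝ) (m : ℕ) (t : ℝ) (ω : MOm) : ℝ :=
  ∑ k ∈ Finset.range ⌈t⌉₊, bsum f (ω (m, k)) (t - k)

variable (f : ℝ → ℝ)

theorem bsum_nonpos (b : MBlk) {s : ℝ} (hs : s ≤ 0) : bsum f b s = 0 := by
  unfold bsum
  apply Finset.sum_eq_zero
  intro i _
  rw [if_neg]
  rintro ⟨h1, h2⟩
  linarith

theorem lsum_eq (m : ℕ) {t : ℝ} {B : ℕ} (hB : ⌈t⌉₊ ≤ B) (ω : MOm) :
    lsum f m t ω = ∑ k ∈ Finset.range B, bsum f (ω (m, k)) (t - k) := by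
  unfold lsum
  refine Finset.sum_subset (Finset.range_subset_range.2 hB) ?_
  intro k _ hk
  apply bsum_nonpos
  rw [Finset.mem_range, not_lt] at hk
  have := Nat.ceil_le.1 hk
  linarith

theorem lsum_nonpos (m : ℕ) {t : ℝ} (h : t ≤ 0) (ω : MOm) : lsum f m t ω = 0 := by
  unfold lsum
  rw [Nat.ceil_eq_zero.2 h]
  simp

theorem bsum_right (b : MBlk) (s : ℝ) : ∀ᶠ u in 𝓝[≥] s, bsum f b u = bsum f b s := by
  have h1 : ∀ i ∈ Finset.range b.1, ∀ᶠ u in 𝓝[≥] s, ((b.2 i).1 ≤ u ↔ (b.2 i).1 ≤ s) := by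
    intro i _
    by_cases hi : (b.2 i).1 ≤ s
    · filter_upwards [self_mem_nhdsWithin] with u hu
      exact ⟨fun _ => hi, fun _ => hi.trans hu⟩
    · have : ∀ᶠ u in 𝓝 s, u < (b.2 i).1 := eventually_lt_nhds (not_le.1 hi)
      filter_upwards [mem_nhdsWithin_of_mem_nhds this] with u hu
      exact ⟨fun h => absurd h (not_le.2 hu), fun h => absurd h hi⟩
  rw [← Filter.eventually_all_finset] at h1
  filter_upwards [h1] with u hu
  unfold bsum
  apply Finset.sum_congr rfl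
  intro i hi
  simp only [hu i hi]

theorem bsum_left (b : MBlk) (s : ℝ) : ∃ c : ℝ, ∀ᶠ u in 𝓝[<] s, bsum f b u = c := by
  refine ⟨∑ i ∈ Finset.range b.1, if 0 < (b.2 i).1 ∧ (b.2 i).1 < s then f (b.2 i).2 else 0, ?_⟩
  have h1 : ∀ i ∈ Finset.range b.1, ∀ᶠ u in 𝓝[<] s, ((b.2 i).1 ≤ u ↔ (b.2 i).1 < s) := by
    intro i _
    by_cases hi : (b.2 i).1 < s
    · have : ∀ᶠ u in 𝓝 s, (b.2 i).1 < u := eventually_gt_nhds hi
      filter_upwards [mem_nhdsWithin_of_mem_nhds this] with u hu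
      exact ⟨fun _ => hi, fun _ => hu.le⟩
    · filter_upwards [self_mem_nhdsWithin] with u hu
      exact ⟨fun h => absurd (lt_of_le_of_lt h hu) hi, fun h => absurd h hi⟩
  rw [← Filter.eventually_all_finset] at h1
  filter_upwards [h1] with u hu
  unfold bsum
  apply Finset.sum_congr rfl
  intro i hi
  simp only [hu i hi]

theorem lsum_right (m : ℕ) (t : ℝ) (ω : MOm) : ∀ᶠ u in 𝓝[≥] t, lsum f m u ω = lsum f m t ω := by
  have h1 : ∀ k ∈ Finset.range (⌈t⌉₊ + 1), ∀ᶠ u in 𝓝[≥] t,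
      bsum f (ω (m, k)) (u - k) = bsum f (ω (m, k)) (t - k) := by
    intro k _
    have h2 : Tendsto (fun u : ℝ => u - k) (𝓝[≥] t) (𝓝[≥] (t - k)) := by
      apply tendsto_nhdsWithin_of_tendsto_nhds_of_eventually_within
      · exact tendsto_nhdsWithin_of_tendsto_nhds (by
          exact (continuous_id.sub continuous_const).tendsto t)
      · filter_upwards [self_mem_nhdsWithin] with u hu
        exact sub_le_sub_right (mem_Ici.1 hu) _
    exact h2.eventually (bsum_right f (ω (m, k)) (t - k))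
  rw [← Filter.eventually_all_finset] at h1
  have h3 : ∀ᶠ u in 𝓝[≥] t, u < t + 1 :=
    mem_nhdsWithin_of_mem_nhds (eventually_lt_nhds (by linarith))
  filter_upwards [h1, h3] with u hu hu3
  have h4 : ⌈u⌉₊ ≤ ⌈t⌉₊ + 1 := by
    rw [Nat.ceil_le]
    push_cast
    have := Nat.le_ceil t
    linarith
  rw [lsum_eq f m h4 ω, lsum_eq f m (Nat.le_succ _) ω]
  exact Finset.sum_congr rfl hu

theorem lsum_left (m : ℕ) (t : ℝ) (ω : MOm) : ∃ c : ℝ, ∀ᶠ u in 𝓝[<] t, lsum f m u ω = c := by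
  have h0 : ∀ k : ℕ, ∃ c : ℝ, ∀ᶠ u in 𝓝[<] t, bsum f (ω (m, k)) (u - k) = c := by
    intro k
    obtain ⟨c, hc⟩ := bsum_left f (ω (m, k)) (t - k)
    refine ⟨c, ?_⟩
    have h2 : Tendsto (fun u : ℝ => u - k) (𝓝[<] t) (𝓝[<] (t - k)) := by
      apply tendsto_nhdsWithin_of_tendsto_nhds_of_eventually_within
      · exact tendsto_nhdsWithin_of_tendsto_nhds (by
          exact (continuous_id.sub continuous_const).tendsto t)
      · filter_upwards [self_mem_nhdsWithin] with u hu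
        exact sub_lt_sub_right (mem_Iio.1 hu) _
    exact h2.eventually hc
  choose c hc using h0
  refine ⟨∑ k ∈ Finset.range ⌈t⌉₊, c k, ?_⟩
  have h1 : ∀ k ∈ Finset.range ⌈t⌉₊, ∀ᶠ u in 𝓝[<] t, bsum f (ω (m, k)) (u - k) = c k :=
    fun k _ => hc k
  rw [← Filter.eventually_all_finset] at h1
  filter_upwards [h1, self_mem_nhdsWithin] with u hu hu3
  rw [lsum_eq f m (Nat.ceil_mono (le_of_lt hu3)) ω]
  exact Finset.sum_congr rfl hu

theorem measurable_bsum (hf : Measurable f) (s : ℝ) : Measurable (fun b : MBlk => bsum f b s) := by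
  unfold bsum
  apply measurable_mblk_sum (g := fun u : ℝ × ℝ => if 0 < u.1 ∧ u.1 ≤ s then f u.2 else 0)
  apply Measurable.ite _ (hf.comp measurable_snd) measurable_const
  exact (measurableSet_Ioc (a := (0 : ℝ)) (b := s)).preimage measurable_fst

theorem measurable_lsum (hf : Measurable f) (m : ℕ) (t : ℝ) : Measurable (lsum f m t) := by
  unfold lsum
  apply Finset.measurable_sum
  intro k _
  exact (measurable_bsum f hf _).comp (measurable_pi_apply _)

/-- increments as sums over points -/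
theorem lsum_sub (m : ℕ) {s t : ℝ} (hst : s ≤ t) {B : ℕ} (hB : ⌈t⌉₊ ≤ B) (ω : MOm) :
    lsum f m t ω - lsum f m s ω = ∑ k ∈ Finset.range B, ∑ i ∈ Finset.range (ω (m, k)).1,
      if 0 < ((ω (m, k)).2 i).1 ∧ s < k + ((ω (m, k)).2 i).1 ∧ k + ((ω (m, k)).2 i).1 ≤ t
        then f ((ω (m, k)).2 i).2 else 0 := by
  rw [lsum_eq f m hB ω, lsum_eq f m ((Nat.ceil_mono hst).trans hB) ω]
  rw [← Finset.sum_sub_distrib]
  refine Finset.sum_congr rfl (fun k _ => ?_)
  unfold bsum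
  rw [← Finset.sum_sub_distrib]
  refine Finset.sum_congr rfl (fun i _ => ?_)
  by_cases h0 : 0 < ((ω (m, k)).2 i).1
  · by_cases h1 : ((ω (m, k)).2 i).1 ≤ s - k
    · rw [if_pos ⟨h0, by linarith⟩, if_pos ⟨h0, h1⟩, if_neg (by
        rintro ⟨_, h2, _⟩; linarith)]
      ring
    · by_cases h2 : ((ω (m, k)).2 i).1 ≤ t - k
      · rw [if_pos ⟨h0, h2⟩, if_neg (fun h => h1 h.2), if_pos ⟨h0, by linarith, by linarith⟩]
        ring
      · rw [if_neg (fun h => h2 h.2), if_neg (fun h => h1 h.2), if_neg (by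
          rintro ⟨_, _, h3⟩; exact h2 (by linarith))]
        ring
  · rw [if_neg (fun h => h0 h.1), if_neg (fun h => h0 h.1), if_neg (fun h => h0 h.1)]
    ring

/-- An increment of the sum of `f` is dominated by the increment of the sum of `g ≥ |f|`. -/
theorem abs_lsum_sub_le {g : ℝ → ℝ} (hg : ∀ x, |f x| ≤ g x) (m : ℕ) {s t : ℝ} (hst : s ≤ t)
    (ω : MOm) : |lsum f m t ω - lsum f m s ω| ≤ lsum g m t ω - lsum g m s ω := by
  rw [lsum_sub f m hst le_rfl, lsum_sub g m hst le_rfl]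
  refine (Finset.abs_sum_le_sum_abs _ _).trans (Finset.sum_le_sum fun k _ => ?_)
  refine (Finset.abs_sum_le_sum_abs _ _).trans (Finset.sum_le_sum fun i _ => ?_)
  split_ifs
  · exact hg _
  · simp

theorem lsum_nonneg {g : ℝ → ℝ} (hg : ∀ x, 0 ≤ g x) (m : ℕ) (t : ℝ) (ω : MOm) :
    0 ≤ lsum g m t ω := by
  unfold lsum bsum
  refine Finset.sum_nonneg fun k _ => Finset.sum_nonneg fun i _ => ?_
  split_ifs
  · exact hg _
  · exact le_rfl

theorem lsum_mono {g : ℝ → ℝ} (hg : ∀ x, 0 ≤ g x) (m : ℕ) (ω : MOm) :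
    Monotone (fun t => lsum g m t ω) := by
  intro s t hst
  have h := lsum_sub g m hst le_rfl ω
  have h2 : 0 ≤ lsum g m t ω - lsum g m s ω := by
    rw [h]
    refine Finset.sum_nonneg fun k _ => Finset.sum_nonneg fun i _ => ?_
    split_ifs
    · exact hg _
    · exact le_rfl
  simp only
  linarith

end Pool.Agent.P8H98.ST
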