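import Pool.Agent.P8H98.ST.Char

/-!
# The process: sum of all the levels
-/

set_option autoImplicit false

open MeasureTheory ProbabilityTheory Set Filter Topology
open scoped NNReal ENNReal

namespace Pool.Agent.P8H98.ST

open Pool.Agent.W850.HT

/-- the absolute value -/
noncomputable def ab (x : ℝ) : ℝ := |x|

theorem ab_nonneg (x : ℝ) : 0 ≤ ab x := abs_nonneg x

theorem measurable_ab : Measurable ab := continuous_abs.measurable

theorem abs_id_le (x : ℝ) : |id x| ≤ ab x := le_rfl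

theorem abs_lsum_le (m : ℕ) (t : ℝ) (ω : MOm) : |lsum id m t ω| ≤ lsum ab m t ω := by
  rcases le_total t 0 with h | h
  · rw [lsum_nonpos id m h, lsum_nonpos ab m h]; simp
  · have := abs_lsum_sub_le id abs_id_le m h ω
    rwa [lsum_nonpos id m le_rfl, lsum_nonpos ab m le_rfl, sub_zero, sub_zero] at this

/-- The good set. -/
def GG : Set MOm := {ω | ∀ T : ℕ, ∑' m, ENNReal.ofReal (lsum ab m T ω) < ∞}

theorem measurableSet_GG : MeasurableSet GG := by
  unfold GG
  rw [Set.ofPred_forall]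
  refine MeasurableSet.iInter fun T => measurableSet_lt ?_ measurable_const
  exact Measurable.tsum fun m => (measurable_lsum ab measurable_ab m T).ennreal_ofReal

theorem summable_ab {ω : MOm} (h : ω ∈ GG) (t : ℝ) : Summable (fun m => lsum ab m t ω) := by
  have h1 := h ⌈t⌉₊
  have h2 : Summable (fun m => lsum ab m (⌈t⌉₊ : ℕ) ω) := by
    have := ENNReal.summable_toReal h1.ne
    simpa [ENNReal.toReal_ofReal (lsum_nonneg ab_nonneg _ _ _)] using this
  refine Summable.of_nonneg_of_le (fun m => lsum_nonneg ab_nonneg _ _ _) (fun m => ?_) h2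
  exact lsum_mono ab_nonneg m ω (Nat.le_ceil t)

theorem summable_id {ω : MOm} (h : ω ∈ GG) (t : ℝ) : Summable (fun m => lsum id m t ω) :=
  Summable.of_norm_bounded (summable_ab h t) (fun m => abs_lsum_le m t ω)

open Classical in
/-- The process. -/
noncomputable def XX (t : ℝ) (ω : MOm) : ℝ := if ω ∈ GG then ∑' m, lsum id m t ω else 0

/-- partial sums -/
noncomputable def psum (M : ℕ) (t : ℝ) (ω : MOm) : ℝ := ∑ m ∈ Finset.range M, lsum id m t ω

/-- tails of the variation -/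
noncomputable def tail (M : ℕ) (t : ℝ) (ω : MOm) : ℝ := ∑' m, lsum ab (m + M) t ω

theorem tendsto_tail (t : ℝ) (ω : MOm) : Tendsto (fun M => tail M t ω) atTop (𝓝 0) :=
  tendsto_sum_nat_add (fun m => lsum ab m t ω)

theorem tail_nonneg (M : ℕ) (t : ℝ) (ω : MOm) : 0 ≤ tail M t ω :=
  tsum_nonneg fun _ => lsum_nonneg ab_nonneg _ _ _

theorem summable_ab_add {ω : MOm} (h : ω ∈ GG) (t : ℝ) (M : ℕ) :
    Summable (fun m => lsum ab (m + M) t ω) := by
  have h1 := summable_ab h t
  rw [← summable_nat_add_iff M] at h1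
  exact h1

theorem summable_id_add {ω : MOm} (h : ω ∈ GG) (t : ℝ) (M : ℕ) :
    Summable (fun m => lsum id (m + M) t ω) := by
  have h1 := summable_id h t
  rw [← summable_nat_add_iff M] at h1
  exact h1

theorem tail_mono (M : ℕ) {ω : MOm} (h : ω ∈ GG) : Monotone (fun t => tail M t ω) := by
  intro s t hst
  have h1 : ∀ m : ℕ, lsum ab (m + M) s ω ≤ lsum ab (m + M) t ω := fun m =>
    lsum_mono ab_nonneg _ ω hst
  have h2 := summable_ab_add h s M
  have h3 := summable_ab_add h t M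
  simp only [tail]
  exact Summable.tsum_le_tsum h1 h2 h3

/-- increments of the tail of the process -/
theorem abs_incr_le (M : ℕ) {ω : MOm} (h : ω ∈ GG) {s t : ℝ} (hst : s ≤ t) :
    |(XX t ω - psum M t ω) - (XX s ω - psum M s ω)| ≤ tail M t ω - tail M s ω := by
  have h1 : ∀ u : ℝ, XX u ω - psum M u ω = ∑' m, lsum id (m + M) u ω := by
    intro u
    unfold XX psum
    rw [if_pos h]
    have h4 := (summable_id h u).sum_add_tsum_nat_add M
    linarith
  have hs : ∀ u : ℝ, Summable (fun m => lsum id (m + M) u ω) := fun u => summable_id_add h u M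
  have ha : ∀ u : ℝ, Summable (fun m => lsum ab (m + M) u ω) := fun u => summable_ab_add h u M
  have h2 : ∀ m : ℕ, ‖lsum id (m + M) t ω - lsum id (m + M) s ω‖ ≤
      lsum ab (m + M) t ω - lsum ab (m + M) s ω := by
    intro m
    rw [Real.norm_eq_abs]
    exact abs_lsum_sub_le id abs_id_le (m + M) hst ω
  have h3 := ((ha t).sub (ha s)).hasSum
  rw [h1, h1, tail, tail, ← (hs t).tsum_sub (hs s), ← (ha t).tsum_sub (ha s), ← Real.norm_eq_abs]
  exact tsum_of_norm_bounded h3 h2

theorem XX_nonpos {t : ℝ} (h : t ≤ 0) (ω : MOm) : XX t ω = 0 := by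
  unfold XX
  split_ifs
  · simp [lsum_nonpos id _ h]
  · rfl

theorem psum_nonpos (M : ℕ) {t : ℝ} (h : t ≤ 0) (ω : MOm) : psum M t ω = 0 := by
  unfold psum
  simp [lsum_nonpos id _ h]

theorem tail_nonpos (M : ℕ) {t : ℝ} (h : t ≤ 0) (ω : MOm) : tail M t ω = 0 := by
  unfold tail
  simp [lsum_nonpos ab _ h]

theorem abs_XX_sub_psum_le (M : ℕ) {ω : MOm} (h : ω ∈ GG) (t : ℝ) :
    |XX t ω - psum M t ω| ≤ tail M t ω := by
  rcases le_total t 0 with h0 | h0
  · rw [XX_nonpos h0, psum_nonpos M h0]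
    simpa using tail_nonneg M t ω
  · have := abs_incr_le M h h0
    rwa [XX_nonpos le_rfl, psum_nonpos M le_rfl, tail_nonpos M le_rfl, sub_zero, sub_zero,
      sub_zero] at this

theorem measurable_psum (M : ℕ) (t : ℝ) : Measurable (psum M t) := by
  unfold psum
  exact Finset.measurable_sum _ fun m _ => measurable_lsum id measurable_id m t

theorem tendsto_psum {ω : MOm} (h : ω ∈ GG) (t : ℝ) :
    Tendsto (fun M => psum M t ω) atTop (𝓝 (XX t ω)) := by
  unfold XX psum
  rw [if_pos h]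
  exact (summable_id h t).hasSum.tendsto_sum_nat

theorem measurable_XX (t : ℝ) : Measurable (XX t) := by
  refine measurable_of_tendsto_metrizable
    (f := fun M => GG.indicator (psum M t)) (fun M => (measurable_psum M t).indicator
      measurableSet_GG) ?_
  rw [tendsto_pi_nhds]
  intro ω
  by_cases hω : ω ∈ GG
  · simp only [indicator_of_mem hω]
    exact tendsto_psum hω t
  · simp only [indicator_of_notMem hω]
    unfold XX
    rw [if_neg hω]
    exact tendsto_const_nhds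

theorem psum_right (M : ℕ) (t : ℝ) (ω : MOm) :
    ContinuousWithinAt (fun s => psum M s ω) (Ici t) t := by
  unfold psum
  refine tendsto_finsetSum _ (fun m _ => ?_)
  refine tendsto_const_nhds.congr' ?_
  filter_upwards [lsum_right id m t ω] with s hs
  rw [hs]

theorem psum_left (M : ℕ) (t : ℝ) (ω : MOm) :
    ∃ c, Tendsto (fun s => psum M s ω) (𝓝[<] t) (𝓝 c) := by
  unfold psum
  choose c hc using fun m => lsum_left id m t ω
  refine ⟨_, tendsto_finsetSum (a := fun m => c m) (Finset.range M) (fun m _ => ?_)⟩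
  refine tendsto_const_nhds.congr' ?_
  filter_upwards [hc m] with s hs
  rw [hs]

theorem XX_right (t : ℝ) (ω : MOm) : ContinuousWithinAt (fun s => XX s ω) (Ici t) t := by
  by_cases hG : ω ∈ GG
  · apply continuousWithinAt_of_locally_uniform_approx_of_continuousWithinAt self_mem_Ici
    intro u hu
    obtain ⟨ε, hε, hεu⟩ := Metric.mem_uniformity_dist.1 hu
    have h1 : ∀ᶠ M in atTop, tail M (t + 1) ω < ε := (tendsto_tail (t + 1) ω).eventually_lt_const hε
    obtain ⟨M, hM⟩ := h1.exists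
    refine ⟨{s | s ≤ t + 1}, ?_, fun s => psum M s ω, psum_right M t ω, ?_⟩
    · apply mem_nhdsWithin_of_mem_nhds
      exact Iic_mem_nhds (lt_add_of_pos_right t one_pos)
    · intro y hy
      apply hεu
      rw [Real.dist_eq]
      exact lt_of_le_of_lt ((abs_XX_sub_psum_le M hG y).trans (tail_mono M hG hy)) hM
  · have : (fun s => XX s ω) = fun _ => 0 := by
      ext s; unfold XX; rw [if_neg hG]
    rw [this]
    exact continuousWithinAt_const

theorem exists_limit_of_approx {α : Type*} {l : Filter α} {f : α → ℝ}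
    (h : ∀ ε : ℝ, 0 < ε → ∃ F : α → ℝ, (∃ c, Tendsto F l (𝓝 c)) ∧ ∀ᶠ x in l, |f x - F x| ≤ ε) :
    ∃ c, Tendsto f l (𝓝 c) := by
  rcases eq_or_neBot l with rfl | hl
  · exact ⟨0, tendsto_bot⟩
  rw [← cauchy_map_iff_exists_tendsto, Metric.cauchy_iff]
  refine ⟨inferInstance, fun ε hε => ?_⟩
  obtain ⟨F, ⟨c, hc⟩, hF⟩ := h (ε / 6) (by positivity)
  have h1 : ∀ᶠ x in l, |F x - c| < ε / 6 := by
    have := Metric.tendsto_nhds.1 hc (ε / 6) (by positivity)
    simpa [Real.dist_eq] using this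
  refine ⟨f '' {x | |f x - F x| ≤ ε / 6 ∧ |F x - c| < ε / 6}, ?_, ?_⟩
  · rw [mem_map]
    filter_upwards [hF, h1] with x hx1 hx2
    exact ⟨x, ⟨hx1, hx2⟩, rfl⟩
  · rintro _ ⟨x, ⟨hx1, hx2⟩, rfl⟩ _ ⟨y, ⟨hy1, hy2⟩, rfl⟩
    rw [Real.dist_eq]
    rw [abs_le] at hx1 hy1
    rw [abs_lt] at hx2 hy2 ⊢
    constructor <;> linarith [hx1.1, hx1.2, hy1.1, hy1.2, hx2.1, hx2.2, hy2.1, hy2.2]

theorem XX_left (t : ℝ) (ω : MOm) : ∃ l, Tendsto (fun s => XX s ω) (𝓝[<] t) (𝓝 l) := by
  by_cases hG : ω ∈ GG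
  · apply exists_limit_of_approx
    intro ε hε
    have h1 : ∀ᶠ M in atTop, tail M t ω < ε := (tendsto_tail t ω).eventually_lt_const hε
    obtain ⟨M, hM⟩ := h1.exists
    refine ⟨fun s => psum M s ω, psum_left M t ω, ?_⟩
    filter_upwards [self_mem_nhdsWithin] with s hs
    exact (((abs_XX_sub_psum_le M hG s).trans (tail_mono M hG (le_of_lt hs))).trans_lt hM).le
  · have : (fun s => XX s ω) = fun _ => 0 := by
      ext s; unfold XX; rw [if_neg hG]
    rw [this]
    exact ⟨0, tendsto_const_nhds⟩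

section law

variable (r : ℕ → ℝ≥0) (κ : ℕ → Measure ℝ) [∀ m, IsProbabilityMeasure (κ m)]

theorem lintegral_lsum_le {g : ℝ → ℝ} (hg : Measurable g) (hg0 : ∀ x, 0 ≤ g x) (m T : ℕ) :
    ∫⁻ ω, ENNReal.ofReal (lsum g m T ω) ∂(MP r κ) ≤ T * (r m * ∫⁻ x, ENNReal.ofReal (g x) ∂(κ m)) := by
  have h1 : ∀ ω : MOm, ENNReal.ofReal (lsum g m T ω) ≤
      ∑ k ∈ Finset.range T, ∑ i ∈ Finset.range (ω (m, k)).1,
        ENNReal.ofReal (g ((ω (m, k)).2 i).2) := by
    intro ω
    rw [lsum_eq g m (B := T) (by simp) ω, ENNReal.ofReal_sum_of_nonneg]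
    · refine Finset.sum_le_sum fun k _ => ?_
      unfold bsum
      rw [ENNReal.ofReal_sum_of_nonneg]
      · refine Finset.sum_le_sum fun i _ => ?_
        split_ifs
        · exact le_rfl
        · simp
      · intro i _
        split_ifs
        · exact hg0 _
        · exact le_rfl
    · intro k _
      unfold bsum
      refine Finset.sum_nonneg fun i _ => ?_
      split_ifs
      · exact hg0 _
      · exact le_rfl
  refine (lintegral_mono h1).trans ?_
  have hm : Measurable (fun u : ℝ × ℝ => ENNReal.ofReal (g u.2)) :=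
    (hg.comp measurable_snd).ennreal_ofReal
  rw [lintegral_finsetSum (Finset.range T) (f := fun k (ω : MOm) =>
    ∑ i ∈ Finset.range (ω (m, k)).1, ENNReal.ofReal (g ((ω (m, k)).2 i).2))
    (fun k _ => (measurable_mblk_lsum hm).comp (measurable_pi_apply (m, k)))]
  have h2 : ∀ k : ℕ, ∫⁻ ω : MOm, ∑ i ∈ Finset.range (ω (m, k)).1,
      ENNReal.ofReal (g ((ω (m, k)).2 i).2) ∂(MP r κ) =
      r m * ∫⁻ x, ENNReal.ofReal (g x) ∂(κ m) := by
    intro k
    have h3 := lintegral_MP r κ (m, k) hm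
    rw [h3]
    congr 1
    have h4 : (unif.prod (κ m)).map Prod.snd = κ m := by
      rw [← Measure.snd, Measure.snd_prod]
    conv_rhs => rw [← h4]
    rw [lintegral_map hg.ennreal_ofReal measurable_snd]
  simp_rw [h2]
  simp

theorem tsum_lt_top_of_succ (a : ℕ → ℝ≥0∞) (h0 : a 0 < ∞) (h1 : ∑' m, a (m + 1) < ∞) :
    ∑' m, a m < ∞ := by
  rw [tsum_eq_zero_add' ENNReal.summable]
  exact ENNReal.add_lt_top.2 ⟨h0, h1⟩

theorem ae_tsum_lt_top {Ω : Type*} [MeasurableSpace Ω] (P : Measure Ω) (a : ℕ → Ω → ℝ≥0∞)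
    (ha : ∀ m, Measurable (a m)) (b : ℕ → ℝ≥0∞) (hb : ∀ m, ∫⁻ ω, a (m + 1) ω ∂P ≤ b m)
    (hs : ∑' m, b m < ∞) (h0 : ∀ ω, a 0 ω < ∞) : ∀ᵐ ω ∂P, ∑' m, a m ω < ∞ := by
  have h1 : ∫⁻ ω, ∑' m, a (m + 1) ω ∂P ≠ ∞ := by
    rw [lintegral_tsum fun m => (ha _).aemeasurable]
    exact ne_top_of_le_ne_top hs.ne (ENNReal.tsum_le_tsum hb)
  have h2 := ae_lt_top (Measurable.tsum fun m => ha (m + 1)) h1
  filter_upwards [h2] with ω hω
  exact tsum_lt_top_of_succ (fun m => a m ω) (h0 ω) hω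

theorem ae_GG (h : ∑' m, (r (m + 1) : ℝ≥0∞) * ∫⁻ x, ENNReal.ofReal |x| ∂(κ (m + 1)) < ∞) :
    ∀ᵐ ω ∂(MP r κ), ω ∈ GG := by
  unfold GG
  simp only [Set.mem_ofPred_eq]
  rw [ae_all_iff]
  intro T
  refine ae_tsum_lt_top (MP r κ) (fun m ω => ENNReal.ofReal (lsum ab m T ω))
    (fun m => (measurable_lsum ab measurable_ab m T).ennreal_ofReal)
    (fun m => (T : ℝ≥0∞) * ((r (m + 1) : ℝ≥0∞) * ∫⁻ x, ENNReal.ofReal |x| ∂(κ (m + 1))))
    (fun m => lintegral_lsum_le r κ measurable_ab ab_nonneg (m + 1) T) ?_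
    (fun ω => ENNReal.ofReal_lt_top)
  rw [ENNReal.tsum_mul_left]
  exact ENNReal.mul_lt_top (by simp) h

/-- The exponent of the partial sums. -/
noncomputable def Psi (M : ℕ) (θ : ℝ) : ℂ := ∑ m ∈ Finset.range M, (r m * psi (κ m) θ)

theorem integral_psum (M : ℕ) {n : ℕ} {t : Fin (n + 1) → ℝ} (ht : Monotone t) (ht0 : 0 ≤ t 0)
    (θ : Fin n → ℝ) :
    ∫ ω, Complex.exp (∑ j, θ j * Complex.I *
      ((psum M (t j.succ) ω - psum M (t j.castSucc) ω : ℝ) : ℂ)) ∂(MP r κ) =
      ∏ j, Complex.exp ((t j.succ - t j.castSucc : ℝ) * Psi r κ M (θ j)) := by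
  have h := char_levels r κ M ht ht0 θ
  have h1 : ∀ ω : MOm, Complex.exp (∑ j, θ j * Complex.I *
      ((psum M (t j.succ) ω - psum M (t j.castSucc) ω : ℝ) : ℂ)) =
      Complex.exp (∑ m ∈ Finset.range M, ∑ j : Fin n, θ j * Complex.I *
        ((lsum id m (t j.succ) ω - lsum id m (t j.castSucc) ω : ℝ) : ℂ)) := by
    intro ω
    congr 1
    rw [Finset.sum_comm]
    refine Finset.sum_congr rfl (fun j _ => ?_)
    unfold psum
    rw [← Finset.sum_sub_distrib, Complex.ofReal_sum, Finset.mul_sum]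
  simp_rw [h1]
  rw [h, ← Complex.exp_sum]
  congr 1
  rw [Finset.sum_comm]
  refine Finset.sum_congr rfl (fun j _ => ?_)
  unfold Psi
  rw [Finset.mul_sum]

theorem tendsto_joint (hG : ∀ᵐ ω ∂(MP r κ), ω ∈ GG) {n : ℕ} {t : Fin (n + 1) → ℝ}
    (ht : Monotone t) (ht0 : 0 ≤ t 0) (θ : Fin n → ℝ) :
    Tendsto (fun M => ∏ j, Complex.exp ((t j.succ - t j.castSucc : ℝ) * Psi r κ M (θ j))) atTop
      (𝓝 (∫ ω, Complex.exp (∑ j, θ j * Complex.I *
        ((XX (t j.succ) ω - XX (t j.castSucc) ω : ℝ) : ℂ)) ∂(MP r κ))) := by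
  have h := fun M => integral_psum r κ M ht ht0 θ
  simp_rw [← h]
  apply tendsto_integral_of_dominated_convergence (fun _ => (1 : ℝ))
  · intro M
    apply Measurable.aestronglyMeasurable
    apply Complex.measurable_exp.comp
    apply Finset.measurable_sum
    intro j _
    apply Measurable.const_mul
    exact Complex.measurable_ofReal.comp ((measurable_psum M _).sub (measurable_psum M _))
  · exact integrable_const _
  · intro M
    refine ae_of_all _ (fun ω => ?_)
    rw [Complex.norm_exp, Real.exp_le_one_iff, Complex.re_sum]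
    apply Finset.sum_nonpos
    intro j _
    simp
  · filter_upwards [hG] with ω hω
    apply (Complex.continuous_exp.tendsto _).comp
    apply tendsto_finsetSum
    intro j _
    apply Tendsto.const_mul
    exact (Complex.continuous_ofReal.tendsto _).comp
      ((tendsto_psum hω _).sub (tendsto_psum hω _))

theorem tendsto_single (hG : ∀ᵐ ω ∂(MP r κ), ω ∈ GG) {a b : ℝ} (ha : 0 ≤ a) (hab : a ≤ b)
    (θ : ℝ) :
    Tendsto (fun M => Complex.exp ((b - a : ℝ) * Psi r κ M θ)) atTop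
      (𝓝 (∫ ω, Complex.exp (θ * Complex.I * ((XX b ω - XX a ω : ℝ) : ℂ)) ∂(MP r κ))) := by
  have h := tendsto_joint r κ hG (n := 1) (t := ![a, b]) (by
    intro i j hij
    fin_cases i <;> fin_cases j <;> simp at hij ⊢
    exact hab) (by simpa using ha) (fun _ => θ)
  simpa using h

theorem XX_indep (hG : ∀ᵐ ω ∂(MP r κ), ω ∈ GG) (n : ℕ) (t : Fin (n + 1) → ℝ) (ht : Monotone t)
    (ht0 : 0 ≤ t 0) :
    iIndepFun (fun (i : Fin n) (ω : MOm) => XX (t i.succ) ω - XX (t i.castSucc) ω) (MP r κ) := by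
  have hm : ∀ i : Fin n, AEMeasurable (fun ω => XX (t i.succ) ω - XX (t i.castSucc) ω)
      (MP r κ) := fun i => ((measurable_XX _).sub (measurable_XX _)).aemeasurable
  rw [iIndepFun_iff_charFun_pi hm]
  intro θ
  have h1 := tendsto_joint r κ hG ht ht0 (fun j => θ j)
  have h2 : Tendsto (fun M => ∏ j, Complex.exp ((t j.succ - t j.castSucc : ℝ) *
      Psi r κ M (θ j))) atTop (𝓝 (∏ j : Fin n, charFun ((MP r κ).map
        (fun ω => XX (t j.succ) ω - XX (t j.castSucc) ω)) (θ j))) := by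
    refine tendsto_finsetProd _ (fun j _ => ?_)
    have h4 := tendsto_single r κ hG (ht0.trans (ht (Fin.zero_le j.castSucc)))
      (ht (Fin.castSucc_le_succ j)) (θ j)
    convert h4 using 2
    rw [charFun_apply, integral_map (hm j) (by fun_prop)]
    congr with ω
    simp only [RCLike.inner_apply, conj_trivial]
    congr 1
    push_cast
    ring
  have h3 := tendsto_nhds_unique h1 h2
  rw [← h3, charFun_apply, integral_map]
  · congr with ω
    congr 1
    rw [PiLp.inner_apply]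
    push_cast
    rw [Finset.sum_mul]
    refine Finset.sum_congr rfl (fun j _ => ?_)
    simp
    ring
  · apply Measurable.aemeasurable
    apply (WithLp.measurable_toLp 2 _).comp
    exact measurable_pi_lambda _ (fun j => (measurable_XX _).sub (measurable_XX _))
  · fun_prop

end law

end Pool.Agent.P8H98.ST
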